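import Pool.Agent.R977.BS.Stm

/-!
# BOOST: amplification with a fixed threshold

The sum estimate is simpler than in the notes: `w(m,i) ≥ 2/m` for every `i`, and more than half of
the `i` are at distance at least `k0` from both ends.
-/

open MeasureTheory Filter ProbabilityTheory
open scoped BigOperators Topology ENNReal NNReal

namespace Pool.Agent.R977.BS

namespace BOOST

lemma pw (k x y c : ℝ) (hk : 0 < k) (hc0 : 0 ≤ c) (hc1 : c ≤ 1) (hx : 0 < x) (hy : 0 < y) :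
    (6 * k / y) ^ c ≤ (6 * k / (x + y)) ^ c * (1 + c * (x / y)) := by
  have h1 : 6 * k / y = (6 * k / (x + y)) * (1 + x / y) := by
    have : x + y ≠ 0 := by positivity
    field_simp
    ring
  rw [h1, Real.mul_rpow (by positivity) (by positivity)]
  refine mul_le_mul_of_nonneg_left ?_ (by positivity)
  have h2 : (-1 : ℝ) ≤ x / y := by
    have : 0 < x / y := by positivity
    linarith
  exact rpow_one_add_le_one_add_mul_self h2 hc0 hc1

lemma term_real (b W x y Fi Fj : ℝ) (hb0 : 0 ≤ b) (hb1 : b < 1) (hW : 0 ≤ W) (hx : 0 < x)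
    (hxy : x ≤ y) (hFi : Fi ≤ 1) (hFj0 : 0 ≤ Fj)
    (hFj : Fj ≤ W * (1 + ((1 - b) / 2) * (x / y))) (P : Prop) [Decidable P] (hP : P → Fi ≤ b) :
    (x + y) / (2 * (x * y)) * (Fi * Fj) ≤
      W * ((x + y) / (2 * (x * y)) + (1 - b) / (x + y) -
        (if P then 2 * (1 - b) / (x + y) else 0)) := by
  have hy : 0 < y := lt_of_lt_of_le hx hxy
  obtain ⟨w, hw⟩ : ∃ w, w = (x + y) / (2 * (x * y)) := ⟨_, rfl⟩
  have hw0 : 0 < w := by rw [hw]; positivity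
  have e1 : w * (x / y) ≤ 2 / (x + y) := by
    have h1 : w * (x / y) = (x + y) / (2 * y ^ 2) := by
      rw [hw]; field_simp
    rw [h1, div_le_div_iff₀ (by positivity) (by positivity)]
    nlinarith
  have e2 : 2 / (x + y) ≤ w := by
    rw [hw, div_le_div_iff₀ (by positivity) (by positivity)]
    nlinarith [sq_nonneg (x - y)]
  have hxy0 : 0 < 2 / (x + y) := by positivity
  have hb : 0 < 1 - b := by linarith
  have e3 : (1 - b) / (x + y) = ((1 - b) / 2) * (2 / (x + y)) := by field_simp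
  have e4 : 2 * (1 - b) / (x + y) = (1 - b) * (2 / (x + y)) := by field_simp
  rw [← hw, e3, e4]
  have hmain : ∀ β : ℝ, Fi ≤ β → 0 ≤ β → β ≤ 1 →
      w * (Fi * Fj) ≤ W * (β * w + ((1 - b) / 2) * (2 / (x + y))) := by
    intro β h1 h2 h3
    have h4 : Fi * Fj ≤ β * (W * (1 + ((1 - b) / 2) * (x / y))) := mul_le_mul h1 hFj hFj0 h2
    have h5 : w * (Fi * Fj) ≤ w * (β * (W * (1 + ((1 - b) / 2) * (x / y)))) :=
      mul_le_mul_of_nonneg_left h4 hw0.le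
    refine h5.trans ?_
    have h6 : w * (β * (W * (1 + ((1 - b) / 2) * (x / y)))) =
        W * (β * w + ((1 - b) / 2) * (β * (w * (x / y)))) := by ring
    rw [h6]
    refine mul_le_mul_of_nonneg_left ?_ hW
    have h7 : β * (w * (x / y)) ≤ 2 / (x + y) := by
      have h8 : 0 ≤ w * (x / y) := by positivity
      calc β * (w * (x / y)) ≤ 1 * (w * (x / y)) := mul_le_mul_of_nonneg_right h3 h8
        _ ≤ 2 / (x + y) := by rw [one_mul]; exact e1
    have h9 := mul_le_mul_of_nonneg_left h7 (show 0 ≤ (1 - b) / 2 by linarith)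
    linarith
  by_cases h : P
  · rw [if_pos h]
    refine (hmain b (hP h) hb0 hb1.le).trans (mul_le_mul_of_nonneg_left ?_ hW)
    have h1 := mul_le_mul_of_nonneg_left e2 hb.le
    nlinarith
  · rw [if_neg h]
    refine (hmain 1 hFi zero_le_one le_rfl).trans (mul_le_mul_of_nonneg_left ?_ hW)
    linarith

/-- one term, `i ≤ m - i` -/
lemma term_half {F : ℕ → ℝ → ℝ} (hF : Sys F) {b : ℝ} {k0 : ℕ} (hb0 : 0 ≤ b) (hb1 : b < 1)
    (hk : 1 ≤ k0) {t : ℝ} (hbd : ∀ i : ℕ, k0 ≤ i → F i t ≤ b) {m : ℕ}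
    (IH : ∀ j, 1 ≤ j → j < m → F j t ≤ (6 * (k0 : ℝ) / (j : ℝ)) ^ ((1 - b) / 2))
    {i j : ℕ} (hi : 1 ≤ i) (hij : i ≤ j) (hm : i + j = m) :
    (m : ℝ) / (2 * ((i : ℝ) * (j : ℝ))) * (F i t * F j t) ≤
      (6 * (k0 : ℝ) / (m : ℝ)) ^ ((1 - b) / 2) *
        ((m : ℝ) / (2 * ((i : ℝ) * (j : ℝ))) + (1 - b) / (m : ℝ) -
          (if k0 ≤ i ∧ k0 ≤ j then 2 * (1 - b) / (m : ℝ) else 0)) := by
  have hmr : (m : ℝ) = (i : ℝ) + (j : ℝ) := by exact_mod_cast hm.symm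
  have hi' : (0 : ℝ) < i := by exact_mod_cast hi
  have hj' : (0 : ℝ) < j := by
    have : 1 ≤ j := le_trans hi hij
    exact_mod_cast this
  have hk' : (0 : ℝ) < k0 := by exact_mod_cast hk
  rw [hmr]
  refine term_real b _ i j (F i t) (F j t) hb0 hb1 (by positivity) hi' (by exact_mod_cast hij)
    (hF.le_one i t) (hF.nonneg j t) ?_ (k0 ≤ i ∧ k0 ≤ j) (fun h => hbd i h.1)
  refine (IH j (le_trans hi hij) (by omega)).trans ?_
  exact pw k0 i j ((1 - b) / 2) hk' (by linarith) (by linarith) hi' hj'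

lemma term {F : ℕ → ℝ → ℝ} (hF : Sys F) {b : ℝ} {k0 : ℕ} (hb0 : 0 ≤ b) (hb1 : b < 1)
    (hk : 1 ≤ k0) {t : ℝ} (hbd : ∀ i : ℕ, k0 ≤ i → F i t ≤ b) {m : ℕ}
    (IH : ∀ j, 1 ≤ j → j < m → F j t ≤ (6 * (k0 : ℝ) / (j : ℝ)) ^ ((1 - b) / 2))
    {i : ℕ} (hi : i ∈ Finset.Ioo 0 m) :
    ww m i * (F i t * F (m - i) t) ≤
      (6 * (k0 : ℝ) / (m : ℝ)) ^ ((1 - b) / 2) *
        (ww m i + (1 - b) / (m : ℝ) -
          (if k0 ≤ i ∧ k0 ≤ m - i then 2 * (1 - b) / (m : ℝ) else 0)) := by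
  rw [Finset.mem_Ioo] at hi
  have hc : (m : ℝ) - (i : ℝ) = ((m - i : ℕ) : ℝ) := by rw [Nat.cast_sub hi.2.le]
  rw [ww, hc]
  rcases le_total i (m - i) with h | h
  · exact term_half hF hb0 hb1 hk hbd IH hi.1 h (by omega)
  · have h1 := term_half hF hb0 hb1 hk hbd IH (i := m - i) (j := i) (by omega) h (by omega)
    rw [mul_comm ((i : ℕ) : ℝ) ((m - i : ℕ) : ℝ), mul_comm (F i t) (F (m - i) t)]
    have h2 : (k0 ≤ i ∧ k0 ≤ m - i) ↔ (k0 ≤ m - i ∧ k0 ≤ i) := and_comm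
    rw [if_congr h2 rfl rfl]
    exact h1

lemma sum_bound {F : ℕ → ℝ → ℝ} (hF : Sys F) {b : ℝ} {k0 : ℕ} (hb0 : 0 ≤ b) (hb1 : b < 1)
    (hk : 1 ≤ k0) {t : ℝ} (hbd : ∀ i : ℕ, k0 ≤ i → F i t ≤ b) {m : ℕ} (hm : 6 * k0 ≤ m)
    (IH : ∀ j, 1 ≤ j → j < m → F j t ≤ (6 * (k0 : ℝ) / (j : ℝ)) ^ ((1 - b) / 2)) :
    ∑ i ∈ Finset.Ioo 0 m, ww m i * (F i t * F (m - i) t) ≤
      hh (m - 1) * (6 * (k0 : ℝ) / (m : ℝ)) ^ ((1 - b) / 2) := by
  have hm0 : (0 : ℝ) < m := by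
    have : 0 < m := by omega
    exact_mod_cast this
  refine (Finset.sum_le_sum fun i hi => term hF hb0 hb1 hk hbd IH hi).trans ?_
  rw [← Finset.mul_sum, Finset.sum_sub_distrib, Finset.sum_add_distrib, sum_ww, Finset.sum_const,
    Nat.card_Ioo, ← Finset.sum_filter, Finset.sum_const, nsmul_eq_mul, nsmul_eq_mul,
    mul_comm (hh (m - 1))]
  refine mul_le_mul_of_nonneg_left ?_ (by positivity)
  have hcard : (m : ℝ) ≤ 2 * ((Finset.filter (fun i => k0 ≤ i ∧ k0 ≤ m - i)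
      (Finset.Ioo 0 m)).card : ℝ) := by
    have h1 : Finset.Icc k0 (m - k0) ⊆ Finset.filter (fun i => k0 ≤ i ∧ k0 ≤ m - i)
        (Finset.Ioo 0 m) := by
      intro i hi
      rw [Finset.mem_Icc] at hi
      rw [Finset.mem_filter, Finset.mem_Ioo]
      omega
    have h2 := Finset.card_le_card h1
    rw [Nat.card_Icc] at h2
    have h3 : m ≤ 2 * (Finset.filter (fun i => k0 ≤ i ∧ k0 ≤ m - i) (Finset.Ioo 0 m)).card := by
      omega
    exact_mod_cast h3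
  obtain ⟨N, hN⟩ : ∃ N : ℝ, N = ((Finset.filter (fun i => k0 ≤ i ∧ k0 ≤ m - i)
      (Finset.Ioo 0 m)).card : ℝ) := ⟨_, rfl⟩
  rw [← hN] at hcard ⊢
  have h4 : ((m - 0 - 1 : ℕ) : ℝ) ≤ m := by
    have : m - 0 - 1 ≤ m := by omega
    exact_mod_cast this
  have hb : 0 < (1 - b) / (m : ℝ) := div_pos (by linarith) hm0
  have h5 : N * (2 * (1 - b) / (m : ℝ)) = (2 * N) * ((1 - b) / (m : ℝ)) := by ring
  rw [h5]
  have h6 : ((m - 0 - 1 : ℕ) : ℝ) * ((1 - b) / (m : ℝ)) ≤ (2 * N) * ((1 - b) / (m : ℝ)) :=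
    mul_le_mul_of_nonneg_right (h4.trans hcard) hb.le
  linarith

lemma main {F : ℕ → ℝ → ℝ} (hF : Sys F) {b T : ℝ} {k0 : ℕ} (hb0 : 0 ≤ b) (hb1 : b < 1)
    (hk : 1 ≤ k0) (hbd : ∀ i : ℕ, k0 ≤ i → ∀ t : ℝ, 0 ≤ t → t ≤ T → F i t ≤ b) :
    ∀ m : ℕ, 1 ≤ m → ∀ t : ℝ, 0 ≤ t → t ≤ T →
      F m t ≤ (6 * (k0 : ℝ) / (m : ℝ)) ^ ((1 - b) / 2) := by
  intro m
  induction m using Nat.strong_induction_on with
  | _ m ih =>
    intro hm t ht0 htT
    have hk' : (0 : ℝ) < k0 := by exact_mod_cast hk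
    have hm' : (0 : ℝ) < m := by exact_mod_cast hm
    rcases Nat.lt_or_ge m (6 * k0) with h | h
    · refine (hF.le_one m t).trans (Real.one_le_rpow ?_ (by linarith))
      rw [one_le_div hm']
      exact_mod_cast h.le
    · have hm2 : 2 ≤ m := by omega
      refine cmp (h := hh (m - 1)) ht0
        (φ' := fun s => ∑ i ∈ Finset.Ioo 0 m, ww m i * (F i s * F (m - i) s) - hh (m - 1) * F m s)
        (ψ' := fun _ => 0) (φ := F m)
        (ψ := fun _ => (6 * (k0 : ℝ) / (m : ℝ)) ^ ((1 - b) / 2))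
        ((hF.cont m).mono fun s hs => hs.1) continuousOn_const
        (fun s hs => hF.deriv m hm2 s hs.1) (fun s _ => hasDerivAt_const _ _) ?_ ?_
      · rw [hF.zero m hm2]
        positivity
      · intro s hs
        have h1 := sum_bound hF hb0 hb1 hk (t := s)
          (fun i hi => hbd i hi s hs.1.le (hs.2.le.trans htT)) h
          (fun j hj hjm => ih j hjm hj s hs.1.le (hs.2.le.trans htT))
        linarith

end BOOST

/-- BS-BOOST -/
theorem pieceBOOST : StmBOOST := by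
  intro F hF b T k0 hb0 hb1 hT hk hbd m hm
  have h := BOOST.main hF hb0 hb1 hk hbd m (by omega) T hT le_rfl
  simpa using h

end Pool.Agent.R977.BS
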