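import Pool.Agent.R977.BS.Stm

/-! Piece CMP: the comparison principle. -/

open MeasureTheory Filter ProbabilityTheory
open scoped BigOperators Topology ENNReal NNReal

namespace Pool.Agent.R977.BS

namespace CMPaux

/-- where to start the comparison -/
lemma start {z : ℝ → ℝ} {t τ : ℝ} (ht : t ∈ Set.Icc (0 : ℝ) τ) (hz : ContinuousOn z (Set.Icc 0 τ))
    {φ : ℝ → ℝ} {g : ℝ} (hg : 0 < g) (h1 : ∀ u, φ u ≤ 1) (h0 : φ 0 ≤ 1 - g) (hz0 : z 0 ≤ 1) :
    ∃ s ∈ Set.Icc (0 : ℝ) t, (∀ u ∈ Set.Ioo s t, 0 < z u) ∧ φ s ≤ 1 - g * z s := by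
  by_cases hne : (Set.Icc (0 : ℝ) t ∩ z ⁻¹' Set.Iic 0).Nonempty
  · have hcl : IsClosed (Set.Icc (0 : ℝ) t ∩ z ⁻¹' Set.Iic 0) :=
      (hz.mono (Set.Icc_subset_Icc_right ht.2)).preimage_isClosed_of_isClosed isClosed_Icc
        isClosed_Iic
    have hco : IsCompact (Set.Icc (0 : ℝ) t ∩ z ⁻¹' Set.Iic 0) :=
      isCompact_Icc.of_isClosed_subset hcl Set.inter_subset_left
    have hmem := hco.sSup_mem hne
    refine ⟨_, hmem.1, ?_, ?_⟩
    · intro u hu
      by_contra hcon
      have hu' : u ∈ (Set.Icc (0 : ℝ) t ∩ z ⁻¹' Set.Iic 0) :=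
        ⟨⟨hmem.1.1.trans hu.1.le, hu.2.le⟩, not_lt.1 hcon⟩
      have := le_csSup hco.bddAbove hu'
      exact absurd hu.1 (not_lt.2 this)
    · have h2 : z (sSup (Set.Icc (0 : ℝ) t ∩ z ⁻¹' Set.Iic 0)) ≤ 0 := hmem.2
      have h3 := h1 (sSup (Set.Icc (0 : ℝ) t ∩ z ⁻¹' Set.Iic 0))
      nlinarith
  · refine ⟨0, ⟨le_rfl, ht.1⟩, ?_, ?_⟩
    · intro u hu
      by_contra hcon
      exact hne ⟨u, ⟨hu.1.le, hu.2.le⟩, not_lt.1 hcon⟩
    · nlinarith

end CMPaux

theorem pieceCMP : StmCMP := by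
  intro F hF t0 τ g m0 z z' ht0 hτ hg hm0 hzc hzd hz0 hzs hgF hineq
  intro m
  induction m using Nat.strong_induction_on with
  | _ m ih =>
    intro hm t ht
    by_cases hzt : z m t ≤ 0
    · rw [max_eq_right hzt, mul_zero, sub_zero]
      exact hF.le_one m _
    push Not at hzt
    have hmm : m0 ≤ m := by
      by_contra hcon
      exact absurd (hzs m (not_le.1 hcon) t ht) (not_le.2 hzt)
    have hm2 : 2 ≤ m := hm0.trans hmm
    rw [max_eq_left hzt.le]
    obtain ⟨s, hs, hpos, hstart⟩ := CMPaux.start (φ := fun u => F m (t0 + u)) ht (hzc m) hg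
      (fun u => hF.le_one m _) (by simp only [add_zero]; linarith [hgF m hmm]) (hz0 m)
    have hsub : Set.Icc s t ⊆ Set.Icc 0 τ := Set.Icc_subset_Icc hs.1 ht.2
    have hsub' : Set.Ioo s t ⊆ Set.Ioo 0 τ := Set.Ioo_subset_Ioo hs.1 ht.2
    apply cmp (h := hh (m - 1)) (φ := fun u => F m (t0 + u)) (ψ := fun u => 1 - g * z m u)
      (φ' := fun u => ∑ i ∈ Finset.Ioo 0 m, ww m i * (F i (t0 + u) * F (m - i) (t0 + u))
        - hh (m - 1) * F m (t0 + u)) (ψ' := fun u => - (g * z' m u)) hs.2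
    · apply (hF.cont m).comp (by fun_prop)
      intro u hu
      have : 0 ≤ u := (hsub hu).1
      exact Set.mem_Ici.2 (by linarith)
    · exact continuousOn_const.sub (continuousOn_const.mul ((hzc m).mono hsub))
    · intro u hu
      have hu0 : 0 < t0 + u := by
        have := (hsub' hu).1
        linarith
      exact (hF.deriv m hm2 (t0 + u) hu0).comp_const_add t0 u
    · intro u hu
      have h1 := ((hzd m u (hsub' hu)).const_mul g).const_sub 1
      exact h1
    · exact hstart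
    · intro u hu
      have hu' : u ∈ Set.Icc (0 : ℝ) τ := Set.Ioo_subset_Icc_self (hsub' hu)
      have hine := hineq m hmm u (hsub' hu) (hpos u hu)
      have hIH : ∀ i ∈ Finset.Ioo 0 m, F i (t0 + u) ≤ 1 - g * max (z i u) 0 := by
        intro i hi
        rw [Finset.mem_Ioo] at hi
        exact ih i hi.2 hi.1 u hu'
      have hIH' : ∀ i ∈ Finset.Ioo 0 m, F (m - i) (t0 + u) ≤ 1 - g * max (z (m - i) u) 0 := by
        intro i hi
        rw [Finset.mem_Ioo] at hi
        exact ih (m - i) (by omega) (by omega) u hu'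
      have hle : ∑ i ∈ Finset.Ioo 0 m, ww m i * (F i (t0 + u) * F (m - i) (t0 + u)) ≤
          ∑ i ∈ Finset.Ioo 0 m, ww m i *
            ((1 - g * max (z i u) 0) * (1 - g * max (z (m - i) u) 0)) := by
        apply Finset.sum_le_sum
        intro i hi
        apply mul_le_mul_of_nonneg_left _ (ww_nonneg hi)
        exact mul_le_mul (hIH i hi) (hIH' i hi) (hF.nonneg _ _)
          (le_trans (hF.nonneg _ _) (hIH i hi))
      have hexp : ∑ i ∈ Finset.Ioo 0 m, ww m i *
            ((1 - g * max (z i u) 0) * (1 - g * max (z (m - i) u) 0)) =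
          hh (m - 1) - g * ∑ i ∈ Finset.Ioo 0 m, 2 * ww m i * max (z i u) 0
            + g * (g * ∑ i ∈ Finset.Ioo 0 m, ww m i * (max (z i u) 0 * max (z (m - i) u) 0)) := by
        have hr : ∑ i ∈ Finset.Ioo 0 m, ww m i * max (z (m - i) u) 0 =
            ∑ i ∈ Finset.Ioo 0 m, ww m i * max (z i u) 0 := by
          rw [← sum_refl m (fun i => ww m i * max (z i u) 0)]
          apply Finset.sum_congr rfl
          intro i hi
          rw [ww_refl hi]
        have h2 : ∑ i ∈ Finset.Ioo 0 m, 2 * ww m i * max (z i u) 0 =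
            ∑ i ∈ Finset.Ioo 0 m, ww m i * max (z i u) 0
              + ∑ i ∈ Finset.Ioo 0 m, ww m i * max (z (m - i) u) 0 := by
          rw [hr, ← Finset.sum_add_distrib]
          apply Finset.sum_congr rfl
          intro i _
          ring
        rw [h2, ← sum_ww m, ← Finset.sum_add_distrib, Finset.mul_sum, Finset.mul_sum,
          Finset.mul_sum, ← Finset.sum_sub_distrib, ← Finset.sum_add_distrib]
        apply Finset.sum_congr rfl
        intro i _
        ring
      have hmul := mul_le_mul_of_nonneg_left hine hg.le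
      rw [hexp] at hle
      nlinarith [hle, hmul]

end Pool.Agent.R977.BS
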