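import Pool.Agent.R977.BS.Stm

/-!
BS-CST: `1 + μ + μ^3 ζ(3) < 2` for `μ = 6/π²`.
-/

set_option autoImplicit false

open Filter Topology

namespace Pool.Agent.R977.BS

namespace CST

theorem zeta_le : ∑' k : ℕ, 1 / ((k : ℝ) + 1) ^ 3 ≤ Real.pi ^ 2 / 6 := by
  have h2 : HasSum (fun k : ℕ => 1 / ((k : ℝ) + 1) ^ 2) (Real.pi ^ 2 / 6) := by
    have h := (hasSum_nat_add_iff' 1).2 hasSum_zeta_two
    simpa using h
  have h3 : ∀ k : ℕ, 1 / ((k : ℝ) + 1) ^ 3 ≤ 1 / ((k : ℝ) + 1) ^ 2 := by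
    intro k
    have hk : (1 : ℝ) ≤ (k : ℝ) + 1 := by
      have : (0 : ℝ) ≤ k := Nat.cast_nonneg k
      linarith
    exact one_div_le_one_div_of_le (by positivity) (pow_le_pow_right₀ hk (by norm_num))
  have hs : Summable fun k : ℕ => 1 / ((k : ℝ) + 1) ^ 3 :=
    Summable.of_nonneg_of_le (fun k => by positivity) h3 h2.summable
  rw [← h2.tsum_eq]
  exact hs.tsum_le_tsum h3 h2.summable

end CST

/-- BS-CST. -/
theorem pieceCST : StmCST := by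
  unfold StmCST
  have hz := CST.zeta_le
  have hpi := Real.pi_gt_d2
  have hp2 : (9.8596 : ℝ) < Real.pi ^ 2 := by nlinarith
  set μ : ℝ := 6 / Real.pi ^ 2 with hμ
  have hp0 : 0 < Real.pi ^ 2 := by linarith
  have hμ0 : 0 < μ := by positivity
  have hμ1 : μ ≤ 0.61 := by
    rw [hμ, div_le_iff₀ hp0]
    linarith
  have h1 : μ ^ 3 * (2 * ∑' k : ℕ, 1 / ((k : ℝ) + 1) ^ 3) / 2 ≤ μ ^ 2 := by
    calc μ ^ 3 * (2 * ∑' k : ℕ, 1 / ((k : ℝ) + 1) ^ 3) / 2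
        = μ ^ 3 * ∑' k : ℕ, 1 / ((k : ℝ) + 1) ^ 3 := by ring
      _ ≤ μ ^ 3 * (Real.pi ^ 2 / 6) := mul_le_mul_of_nonneg_left hz (by positivity)
      _ = μ ^ 2 * (μ * (Real.pi ^ 2 / 6)) := by ring
      _ = μ ^ 2 := by
        have : μ * (Real.pi ^ 2 / 6) = 1 := by
          rw [hμ]; field_simp
        rw [this, mul_one]
  nlinarith

end Pool.Agent.R977.BS
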