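import Mathlib

/-!
# The continuous-time critical beta-splitting tree CTCS(n): definitions

`hh m` is the harmonic number h_m, `qq m i` the splitting law q(m,i), `ctcs n ω` the random tree with `n`
leaves built from independent marks `ω (w, m) = (lifetime, size of the first child)` of the block at
position `w` (a word of left/right turns) when this block has size `m`.
-/

open MeasureTheory Filter ProbabilityTheory
open scoped BigOperators Topology ENNReal NNReal

namespace Pool.Agent.R977.BS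

/-- The harmonic number `h_m = 1 + 1/2 + ... + 1/m`. -/
noncomputable def hh (m : ℕ) : ℝ := ∑ i ∈ Finset.range m, 1 / ((i : ℝ) + 1)

/-- The splitting distribution `q(m,i) = m / (2 h_{m-1}) * 1 / (i (m-i))`, `1 ≤ i ≤ m-1`. -/
noncomputable def qq (m i : ℕ) : ℝ :=
  (m : ℝ) / (2 * hh (m - 1)) * (1 / ((i : ℝ) * ((m : ℝ) - (i : ℝ))))

/-- The law of the size of the first child of a block of size `m`. -/
noncomputable def splitLaw (m : ℕ) : Measure ℕ :=
  ∑ i ∈ Finset.Ioo 0 m, ENNReal.ofReal (qq m i) • Measure.dirac i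

/-- The law of the pair (lifetime, size of the first child) of a block of size `m`: for `m ≥ 2` these are
independent, the lifetime is exponential of rate `h_{m-1}` and the size has law `q(m, ·)`; a block of size at
most `1` never splits (its mark is not used, it is set to `(0, 0)`). -/
noncomputable def markLaw (m : ℕ) : Measure (ℝ × ℕ) :=
  if 2 ≤ m then (expMeasure (hh (m - 1))).prod (splitLaw m) else Measure.dirac (0, 0)

/-- Finite binary trees in which every branching block carries its lifetime. -/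
inductive BTree : Type
  | leaf : BTree
  | node : ℝ → BTree → BTree → BTree

/-- The height: the largest sum of the lifetimes along a path from the root to a leaf, that is, the largest
time at which the block of some leaf becomes a singleton. -/
noncomputable def BTree.height : BTree → ℝ
  | .leaf => 0
  | .node t l r => t + max l.height r.height

/-- The number of leaves. -/
def BTree.leaves : BTree → ℕ
  | .leaf => 1
  | .node _ l r => l.leaves + r.leaves

/-- The tree with `n` leaves built from the marks `ω`: the root block has size `n`; if its mark is `(t, i)`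
with `0 < i < n` it lives for time `t` and splits in two blocks of sizes `i` and `n - i`, from which the
construction goes on with the marks of the positions below. -/
noncomputable def ctcs (n : ℕ) (ω : List Bool × ℕ → ℝ × ℕ) : BTree :=
  if h : 0 < (ω ([], n)).2 ∧ (ω ([], n)).2 < n then
    .node (ω ([], n)).1
      (ctcs (ω ([], n)).2 (fun p => ω (false :: p.1, p.2)))
      (ctcs (n - (ω ([], n)).2) (fun p => ω (true :: p.1, p.2)))
  else .leaf
termination_by n
decreasing_by
  · exact h.2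
  · exact Nat.sub_lt (lt_of_le_of_lt (Nat.zero_le _) h.2) h.1

/-- The law of the marks: the marks of all pairs (position, size) are independent, and the mark of
`(w, m)` has law `markLaw m`. -/
noncomputable def PP : Measure (List Bool × ℕ → ℝ × ℕ) :=
  Measure.infinitePi (fun p : List Bool × ℕ => markLaw p.2)

/-- The recursive law of the height of CTCS(n). -/
noncomputable def heightLaw (n : ℕ) : Measure ℝ :=
  if n ≤ 1 then Measure.dirac 0 else
    ∑ i ∈ (Finset.Ioo 0 n).attach, ENNReal.ofReal (qq n i.1) •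
      Measure.map (fun p : ℝ × (ℝ × ℝ) => p.1 + max p.2.1 p.2.2)
        ((expMeasure (hh (n - 1))).prod ((heightLaw i.1).prod (heightLaw (n - i.1))))
termination_by n
decreasing_by
  · exact (Finset.mem_Ioo.1 i.2).2
  · have := Finset.mem_Ioo.1 i.2; omega

/-- weights `w(m,i) = h_{m-1} q(m,i) = m / (2 i (m-i))`. -/
noncomputable def ww (m i : ℕ) : ℝ := (m : ℝ) / (2 * ((i : ℝ) * ((m : ℝ) - (i : ℝ))))

/-- The system of differential equations solved by the distribution functions `F m t = P(D*_m ≤ t)`. -/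
structure Sys (F : ℕ → ℝ → ℝ) : Prop where
  one : ∀ t, 0 ≤ t → F 1 t = 1
  zero : ∀ m, 2 ≤ m → F m 0 = 0
  nonneg : ∀ m t, 0 ≤ F m t
  le_one : ∀ m t, F m t ≤ 1
  mono : ∀ m, Monotone (F m)
  cont : ∀ m, ContinuousOn (F m) (Set.Ici 0)
  deriv : ∀ m, 2 ≤ m → ∀ t, 0 < t → HasDerivAt (F m)
    (∑ i ∈ Finset.Ioo 0 m, ww m i * (F i t * F (m - i) t) - hh (m - 1) * F m t) t

/-- `κ_m(p) = (1/m) Σ_{0<i<m} (1 - (i/m)^{p-1}) / (1 - i/m)`. -/
noncomputable def kap (m : ℕ) (p : ℝ) : ℝ :=
  (1 / (m : ℝ)) * ∑ i ∈ Finset.Ioo 0 m, (1 - ((i : ℝ) / m) ^ (p - 1)) / (1 - (i : ℝ) / m)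

/-- The profile `z(x,t)`. -/
noncomputable def zz (A B G δ η v1 v2 x t : ℝ) : ℝ :=
  A * x ^ (2 : ℝ) * Real.exp (-((1 + δ * η) * t)) - B * x ^ (2 + δ) * Real.exp (-((1 + v1 * δ) * t))
    - G * x ^ (2 - δ) * Real.exp (-((1 - v2 * δ) * t))

/-- The time derivative of the profile `z(x,t)`. -/
noncomputable def zzd (A B G δ η v1 v2 x t : ℝ) : ℝ :=
  -(1 + δ * η) * (A * x ^ (2 : ℝ) * Real.exp (-((1 + δ * η) * t)))
    + (1 + v1 * δ) * (B * x ^ (2 + δ) * Real.exp (-((1 + v1 * δ) * t)))
    + (1 - v2 * δ) * (G * x ^ (2 - δ) * Real.exp (-((1 - v2 * δ) * t)))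

/-- `Σ_{0<i<m} w(m,i) = h_{m-1}`. -/
theorem sum_ww (m : ℕ) : ∑ i ∈ Finset.Ioo 0 m, ww m i = hh (m - 1) := by
  rcases Nat.eq_zero_or_pos m with hm0 | hm0
  · subst hm0; simp [hh]
  have h1 : ∀ f : ℕ → ℝ, ∑ i ∈ Finset.Ioo 0 m, f i = ∑ i ∈ Finset.range (m - 1), f (i + 1) := by
    intro f
    have : Finset.Ioo 0 m = (Finset.range (m - 1)).image (· + 1) := by
      ext i; simp only [Finset.mem_Ioo, Finset.mem_image, Finset.mem_range]
      constructor
      · rintro ⟨h1, h2⟩; exact ⟨i - 1, by omega, by omega⟩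
      · rintro ⟨a, h1, rfl⟩; omega
    rw [this, Finset.sum_image (by intro a _ b _ h; simpa using h)]
  have h2 : ∑ i ∈ Finset.range (m - 1), 1 / ((m : ℝ) - ((i + 1 : ℕ) : ℝ)) = hh (m - 1) := by
    unfold hh
    rw [← Finset.sum_range_reflect]
    apply Finset.sum_congr rfl
    intro i hi
    rw [Finset.mem_range] at hi
    congr 1
    have : ((m - 1 - 1 - i + 1 : ℕ) : ℝ) = (m : ℝ) - 1 - (i : ℝ) := by
      have h3 : m - 1 - 1 - i + 1 = m - 1 - i := by omega
      rw [h3, Nat.cast_sub (by omega), Nat.cast_sub (by omega)]; simp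
    rw [this]; ring
  rw [h1]
  have h3 : ∀ i ∈ Finset.range (m - 1), ww m (i + 1)
      = 1 / 2 * (1 / ((i : ℝ) + 1)) + 1 / 2 * (1 / ((m : ℝ) - ((i + 1 : ℕ) : ℝ))) := by
    intro i hi
    rw [Finset.mem_range] at hi
    unfold ww
    have h4 : ((i : ℝ) + 1) < m := by
      have : i + 1 < m := by omega
      exact_mod_cast this
    have h5 : (0 : ℝ) < (i : ℝ) + 1 := by positivity
    have h6 : (m : ℝ) - ((i : ℝ) + 1) ≠ 0 := by linarith
    push_cast
    field_simp
    ring
  rw [Finset.sum_congr rfl h3, Finset.sum_add_distrib, ← Finset.mul_sum, ← Finset.mul_sum, h2]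
  have : hh (m - 1) = ∑ i ∈ Finset.range (m - 1), 1 / ((i : ℝ) + 1) := rfl
  rw [← this]; ring

theorem ww_nonneg {m i : ℕ} (hi : i ∈ Finset.Ioo 0 m) : 0 ≤ ww m i := by
  rw [Finset.mem_Ioo] at hi
  unfold ww
  have h1 : (0 : ℝ) < i := by exact_mod_cast hi.1
  have h2 : (i : ℝ) < m := by exact_mod_cast hi.2
  have : (0 : ℝ) < (m : ℝ) - i := by linarith
  positivity

/-- Reflection `i ↦ m - i` on `Ioo 0 m`. -/
theorem sum_refl (m : ℕ) (f : ℕ → ℝ) :
    ∑ i ∈ Finset.Ioo 0 m, f (m - i) = ∑ i ∈ Finset.Ioo 0 m, f i := by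
  apply Finset.sum_bij' (fun i _ => m - i) (fun i _ => m - i)
  · intro i hi; rw [Finset.mem_Ioo] at hi ⊢; omega
  · intro i hi; rw [Finset.mem_Ioo] at hi ⊢; omega
  · intro i hi; rw [Finset.mem_Ioo] at hi; omega
  · intro i hi; rw [Finset.mem_Ioo] at hi; omega
  · intro i hi; rfl

theorem ww_refl {m i : ℕ} (hi : i ∈ Finset.Ioo 0 m) : ww m (m - i) = ww m i := by
  rw [Finset.mem_Ioo] at hi
  unfold ww
  rw [Nat.cast_sub hi.2.le]
  congr 1
  ring

/-- Comparison of a subsolution and a supersolution of `φ' + h φ = ...`. -/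
theorem cmp {a b h : ℝ} (hab : a ≤ b) {φ ψ φ' ψ' : ℝ → ℝ}
    (hφc : ContinuousOn φ (Set.Icc a b)) (hψc : ContinuousOn ψ (Set.Icc a b))
    (hφ : ∀ t ∈ Set.Ioo a b, HasDerivAt φ (φ' t) t) (hψ : ∀ t ∈ Set.Ioo a b, HasDerivAt ψ (ψ' t) t)
    (h0 : φ a ≤ ψ a) (hd : ∀ t ∈ Set.Ioo a b, φ' t + h * φ t ≤ ψ' t + h * ψ t) : φ b ≤ ψ b := by
  have hcont : ContinuousOn (fun t => Real.exp (h * t) * (ψ t - φ t)) (Set.Icc a b) := by
    apply ContinuousOn.mul _ (hψc.sub hφc)
    fun_prop
  have hmono : MonotoneOn (fun t => Real.exp (h * t) * (ψ t - φ t)) (Set.Icc a b) := by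
    apply monotoneOn_of_hasDerivWithinAt_nonneg (convex_Icc a b) hcont
      (f' := fun t => Real.exp (h * t) * (h * 1) * (ψ t - φ t) + Real.exp (h * t) * (ψ' t - φ' t))
    · intro t ht
      rw [interior_Icc] at ht
      have h1 : HasDerivAt (fun t => Real.exp (h * t)) (Real.exp (h * t) * (h * 1)) t :=
        ((hasDerivAt_id t).const_mul h).exp
      exact (h1.mul ((hψ t ht).sub (hφ t ht))).hasDerivWithinAt
    · intro t ht
      rw [interior_Icc] at ht
      have h1 := hd t ht
      have h2 : Real.exp (h * t) * (h * 1) * (ψ t - φ t) + Real.exp (h * t) * (ψ' t - φ' t)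
          = Real.exp (h * t) * ((ψ' t + h * ψ t) - (φ' t + h * φ t)) := by ring
      rw [h2]
      exact mul_nonneg (Real.exp_pos _).le (by linarith)
  have h1 := hmono (Set.left_mem_Icc.2 hab) (Set.right_mem_Icc.2 hab) hab
  have h2 : 0 ≤ Real.exp (h * a) * (ψ a - φ a) := mul_nonneg (Real.exp_pos _).le (by linarith)
  have h3 : 0 ≤ Real.exp (h * b) * (ψ b - φ b) := le_trans h2 h1
  have h4 := (mul_nonneg_iff_of_pos_left (Real.exp_pos (h * b))).1 h3
  linarith

end Pool.Agent.R977.BS
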