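import Pool.Agent.R977.BS.Stm

open MeasureTheory Filter ProbabilityTheory
open scoped BigOperators Topology ENNReal NNReal

namespace Pool.Agent.R977.BS

theorem FINAL.prob (hM : StmMEAS) : IsProbabilityMeasure PP := by
  have h : ∀ p : List Bool × ℕ, IsProbabilityMeasure (markLaw p.2) := fun p => hM.2.1 p.2
  unfold PP
  infer_instance

theorem FINAL.two (hT : StmTREE) (hL : StmLIM) (ε : ℝ) (hε : 0 < ε) : Tendsto
    (fun n : ℕ => PP {ω | ε < |(ctcs n ω).height / Real.log n - 2|}) atTop (𝓝 0) := by
  refine (hL ε hε).congr ?_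
  intro n
  obtain ⟨h1, h2⟩ := hT n
  rw [← h2, Measure.map_apply h1]
  · rfl
  · have : Measurable (fun x : ℝ => |x / Real.log n - 2|) := by fun_prop
    exact measurableSet_lt measurable_const this

theorem pieceFINAL (hM : StmMEAS) (hT : StmTREE) (hL : StmLIM) : StmFINAL := by
  intro c
  constructor
  · intro hc
    by_contra hne
    have hprob := FINAL.prob hM
    have hε : 0 < |c - 2| / 3 := by
      have : 0 < |c - 2| := abs_pos.2 (sub_ne_zero.2 hne)
      positivity
    have h1 := hc _ hε
    have h2 := FINAL.two hT hL _ hε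
    have h3 := h1.add h2
    rw [add_zero] at h3
    have h4 : (1 : ℝ≥0∞) ≤ 0 := by
      refine le_of_tendsto_of_tendsto' tendsto_const_nhds h3 ?_
      intro n
      have h5 : (Set.univ : Set (List Bool × ℕ → ℝ × ℕ)) ⊆
          {ω | |c - 2| / 3 < |(ctcs n ω).height / Real.log n - c|} ∪
          {ω | |c - 2| / 3 < |(ctcs n ω).height / Real.log n - 2|} := by
        intro ω _
        by_contra hω
        simp only [Set.mem_union, Set.mem_ofPred_eq, not_or, not_lt] at hω
        have h6 : |c - 2| ≤ |(ctcs n ω).height / Real.log n - c| +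
            |(ctcs n ω).height / Real.log n - 2| := by
          have h7 := abs_sub_le c ((ctcs n ω).height / Real.log n) 2
          rw [abs_sub_comm c ((ctcs n ω).height / Real.log n)] at h7
          exact h7
        linarith [hω.1, hω.2]
      calc (1 : ℝ≥0∞) = PP Set.univ := measure_univ.symm
        _ ≤ _ := measure_mono h5
        _ ≤ _ := measure_union_le _ _
    exact absurd h4 (by simp)
  · rintro rfl
    exact fun ε hε => FINAL.two hT hL ε hε

end Pool.Agent.R977.BS
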