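import Pool.Agent.R977.BS.Stm

/-!
BS-KAP: asymptotics of `κ_m(2 ± δ)`.
-/

set_option autoImplicit false

open Filter Topology

namespace Pool.Agent.R977.BS

namespace KAP

/-- the function `x log (1/x) / (1 - x)`, with the value `1` at `x = 1` -/
noncomputable def psi (x : ℝ) : ℝ := if x < 1 then x * Real.log x / (x - 1) else 1

theorem psi_zero : psi 0 = 0 := by simp [psi]

theorem psi_one : psi 1 = 1 := by simp [psi]

theorem psi_le_one {x : ℝ} (h0 : 0 ≤ x) (h1 : x < 1) : x * Real.log x / (x - 1) ≤ 1 := by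
  rcases h0.eq_or_lt with rfl | h0
  · simp
  · rw [div_le_one_of_neg (by linarith)]
    have h := Real.one_sub_inv_le_log_of_pos h0
    have h2 : x * (1 - x⁻¹) ≤ x * Real.log x := mul_le_mul_of_nonneg_left h h0.le
    rw [mul_sub, mul_inv_cancel₀ h0.ne', mul_one] at h2
    exact h2

theorem psi_mono : MonotoneOn psi (Set.Icc 0 1) := by
  intro x hx y hy hxy
  unfold psi
  split_ifs with h1 h2 h2
  · have h := Real.convexOn_mul_log.secant_mono (a := 1) (x := x) (y := y) (by simp) hx.1 hy.1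
      h1.ne h2.ne hxy
    simpa using h
  · exact psi_le_one hx.1 h1
  · exact absurd (lt_of_le_of_lt hxy h2) h1
  · exact le_rfl

/-- the Riemann sums -/
noncomputable def vm (m : ℕ) : ℝ := (1 / (m : ℝ)) * ∑ i ∈ Finset.Ioo 0 m, psi ((i : ℝ) / m)

/-- the limit -/
noncomputable def vv : ℝ := ∫ x in (0 : ℝ)..1, psi x

theorem Ioo_eq (m : ℕ) : Finset.Ioo 0 m = Finset.Ico 1 m := by
  ext i
  simp only [Finset.mem_Ioo, Finset.mem_Ico]
  omega

theorem scale (m : ℕ) (hm : 1 ≤ m) : ∫ x in (0 : ℝ)..(0 + (m : ℕ)), psi (x / m) = m * vv := by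
  have hm0 : (m : ℝ) ≠ 0 := by
    have : m ≠ 0 := by omega
    exact_mod_cast this
  rw [intervalIntegral.integral_comp_div (fun x => psi x) hm0, zero_div, zero_add, div_self hm0,
    smul_eq_mul]
  rfl

theorem mono_scaled (m : ℕ) (hm : 1 ≤ m) :
    MonotoneOn (fun x : ℝ => psi (x / m)) (Set.Icc 0 (0 + (m : ℕ))) := by
  have hm0 : (0 : ℝ) < m := by exact_mod_cast hm
  intro x hx y hy hxy
  rw [zero_add] at hx hy
  refine psi_mono ⟨div_nonneg hx.1 hm0.le, (div_le_one hm0).2 hx.2⟩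
    ⟨div_nonneg hy.1 hm0.le, (div_le_one hm0).2 hy.2⟩ ?_
  exact div_le_div_of_nonneg_right hxy hm0.le

theorem vm_le (m : ℕ) (hm : 1 ≤ m) : vm m ≤ vv := by
  have hm0 : (0 : ℝ) < m := by exact_mod_cast hm
  have h := (mono_scaled m hm).sum_le_integral
  rw [scale m hm, Finset.range_eq_Ico, Finset.sum_eq_sum_Ico_succ_bot (by omega)] at h
  simp only [zero_add, Nat.cast_zero, zero_div, psi_zero] at h
  unfold vm
  rw [Ioo_eq, one_div, inv_mul_le_iff₀ hm0]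
  exact h

theorem le_vm (m : ℕ) (hm : 1 ≤ m) : vv ≤ vm m + 1 / m := by
  have hm0 : (0 : ℝ) < m := by exact_mod_cast hm
  have h := (mono_scaled m hm).integral_le_sum
  rw [scale m hm] at h
  have e : ∑ i ∈ Finset.range m, psi ((0 + ((i + 1 : ℕ) : ℝ)) / m) =
      ∑ i ∈ Finset.Ioo 0 m, psi ((i : ℝ) / m) + 1 := by
    have e1 : ∑ i ∈ Finset.range m, psi ((0 + ((i + 1 : ℕ) : ℝ)) / m) =
        ∑ i ∈ Finset.Ico 1 (m + 1), psi ((i : ℝ) / m) := by
      rw [Finset.range_eq_Ico, ← Finset.sum_Ico_add' (fun i : ℕ => psi ((i : ℝ) / m)) 0 m 1]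
      simp
    rw [e1, Finset.sum_Ico_succ_top (by omega), Ioo_eq, div_self hm0.ne', psi_one]
  have h' : (m : ℝ) * vv ≤ ∑ i ∈ Finset.Ioo 0 m, psi ((i : ℝ) / m) + 1 := by
    rw [← e]; exact h
  unfold vm
  have e2 : 1 / (m : ℝ) * ∑ i ∈ Finset.Ioo 0 m, psi ((i : ℝ) / m) + 1 / m =
      (∑ i ∈ Finset.Ioo 0 m, psi ((i : ℝ) / m) + 1) / m := by ring
  rw [e2, le_div_iff₀ hm0]
  linarith

theorem vv_lt : vv ≤ 9 / 10 := by
  have h := le_vm 2 (by norm_num)
  have e : vm 2 = (1 / 2) * psi (1 / 2) := by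
    unfold vm
    rw [show Finset.Ioo 0 2 = {1} by decide]
    simp
  have e2 : psi (1 / 2) = Real.log 2 := by
    unfold psi
    rw [if_pos (by norm_num), one_div, Real.log_inv]
    ring
  rw [e, e2] at h
  have := Real.log_two_lt_d9
  push_cast at h
  linarith

theorem vv_gt : 1 / 2 < vv := by
  have h := vm_le 4 (by norm_num)
  have e : vm 4 = (1 / 4) * (psi (1 / 4) + psi (1 / 2) + psi (3 / 4)) := by
    unfold vm
    rw [show Finset.Ioo 0 4 = {1, 2, 3} by decide]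
    rw [Finset.sum_insert (by decide), Finset.sum_insert (by decide), Finset.sum_singleton]
    push_cast
    rw [show (2 : ℝ) / 4 = 1 / 2 by norm_num]
    ring
  have e1 : psi (1 / 4) = 2 / 3 * Real.log 2 := by
    unfold psi
    rw [if_pos (by norm_num), one_div, Real.log_inv, show (4 : ℝ) = 2 ^ 2 by norm_num, Real.log_pow]
    push_cast
    ring
  have e2 : psi (1 / 2) = Real.log 2 := by
    unfold psi
    rw [if_pos (by norm_num), one_div, Real.log_inv]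
    ring
  have e3 : 6 / 7 ≤ psi (3 / 4) := by
    unfold psi
    rw [if_pos (by norm_num), show (3 : ℝ) / 4 = (1 + 1 / 3)⁻¹ by norm_num, Real.log_inv]
    have h5 := Real.le_log_one_add_of_nonneg (show (0 : ℝ) ≤ 1 / 3 by norm_num)
    have h6 : (2 : ℝ) / 7 ≤ Real.log (1 + 1 / 3) := by
      refine le_trans (le_of_eq ?_) h5
      norm_num
    have h7 : (1 + 1 / 3 : ℝ)⁻¹ * -Real.log (1 + 1 / 3) / ((1 + 1 / 3 : ℝ)⁻¹ - 1) =
        3 * Real.log (1 + 1 / 3) := by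
      norm_num
      ring
    rw [h7]
    linarith
  rw [e, e1, e2] at h
  have := Real.log_two_gt_d9
  linarith

/-- the quadratic remainders -/
theorem star {l : ℝ} (hl : 0 ≤ l) : l ^ 2 * Real.exp (-(l / 2)) ≤ 16 * (1 - Real.exp (-l)) := by
  set q : ℝ := Real.exp (-(l / 4)) with hq
  have hq0 : 0 < q := Real.exp_pos _
  have hq1 : q ≤ 1 := by
    rw [hq, Real.exp_le_one_iff]
    linarith
  have e1 : Real.exp (-(l / 2)) = q ^ 2 := by
    rw [hq, ← Real.exp_nat_mul]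
    congr 1
    push_cast
    ring
  have e2 : Real.exp (-l) = q ^ 4 := by
    rw [hq, ← Real.exp_nat_mul]
    congr 1
    push_cast
    ring
  have h1 : l * q ≤ 4 * (1 - q) := by
    have h2 : 1 + l / 4 ≤ Real.exp (l / 4) := by linarith [Real.add_one_le_exp (l / 4)]
    have h3 : Real.exp (l / 4) * q = 1 := by
      rw [hq, ← Real.exp_add]
      simp
    nlinarith
  rw [e1, e2]
  have h4 : l ^ 2 * q ^ 2 ≤ (4 * (1 - q)) ^ 2 := by
    rw [← mul_pow]
    exact pow_le_pow_left₀ (by positivity) h1 2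
  have h5 : (1 - q) ^ 2 ≤ 1 - q := by nlinarith
  have h6 : q ^ 4 ≤ q := by
    calc q ^ 4 = q * q ^ 3 := by ring
      _ ≤ q * 1 := mul_le_mul_of_nonneg_left (pow_le_one₀ hq0.le hq1) hq0.le
      _ = q := mul_one q
  nlinarith

theorem exp_neg_le {u : ℝ} (hu : 0 ≤ u) : Real.exp (-u) ≤ 1 - u + u ^ 2 / 2 := by
  have h := Real.quadratic_le_exp_of_nonneg hu
  rw [Real.exp_neg, inv_le_iff_one_le_mul₀ (Real.exp_pos u)]
  have h2 : 0 ≤ 1 - u + u ^ 2 / 2 := by nlinarith [sq_nonneg (u - 1)]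
  have h3 : (1 - u + u ^ 2 / 2) * (1 + u + u ^ 2 / 2) ≤ (1 - u + u ^ 2 / 2) * Real.exp u :=
    mul_le_mul_of_nonneg_left h h2
  nlinarith [sq_nonneg (u ^ 2)]

theorem exp_sub_le {u : ℝ} (hu : 0 ≤ u) : Real.exp u - 1 ≤ u + u ^ 2 * Real.exp u := by
  have h1 : Real.exp u - 1 ≤ u * Real.exp u := by
    have h2 : 1 - u ≤ Real.exp (-u) := Real.one_sub_le_exp_neg u
    have h3 : Real.exp (-u) * Real.exp u = 1 := by rw [← Real.exp_add]; simp
    nlinarith [Real.exp_pos u]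
  nlinarith

theorem term_plus {x δ : ℝ} (hx0 : 0 < x) (hx1 : x < 1) (hδ : 0 < δ) :
    1 + δ * psi x - 8 * δ ^ 2 ≤ (1 - x ^ (2 + δ - 1)) / (1 - x) := by
  set l : ℝ := -Real.log x with hl
  have hl0 : 0 < l := by
    rw [hl]
    linarith [Real.log_neg hx0 hx1]
  have hx : x = Real.exp (-l) := by
    rw [hl, neg_neg, Real.exp_log hx0]
  have hx' : 0 < 1 - x := by linarith
  have e1 : x ^ (2 + δ - 1) = x * Real.exp (-(δ * l)) := by
    rw [show 2 + δ - 1 = 1 + δ by ring, Real.rpow_add hx0, Real.rpow_one,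
      Real.rpow_def_of_pos hx0]
    congr 2
    rw [hl]
    ring
  have e2 : psi x = x * l / (1 - x) := by
    unfold psi
    rw [if_pos hx1, hl, ← neg_sub 1 x, div_neg]
    ring
  rw [le_div_iff₀ hx', e1, e2]
  have h1 := exp_neg_le (show 0 ≤ δ * l by positivity)
  have h2 := star hl0.le
  rw [← hx] at h2
  have h3 : x * l ^ 2 ≤ 16 * (1 - x) := by
    refine le_trans ?_ h2
    have h4 : x ≤ Real.exp (-(l / 2)) := by
      rw [hx]
      apply Real.exp_le_exp.2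
      have : -(-Real.log (Real.exp (-l))) = -l := by rw [Real.log_exp]; ring
      linarith
    nlinarith [sq_nonneg l]
  have h5 : x * Real.exp (-(δ * l)) ≤ x * (1 - δ * l + (δ * l) ^ 2 / 2) :=
    mul_le_mul_of_nonneg_left h1 hx0.le
  have e3 : (1 + δ * (x * l / (1 - x)) - 8 * δ ^ 2) * (1 - x) =
      (1 - x) + δ * (x * l) - 8 * δ ^ 2 * (1 - x) := by
    field_simp
  rw [e3]
  have h6 : δ ^ 2 / 2 * (x * l ^ 2) ≤ δ ^ 2 / 2 * (16 * (1 - x)) :=
    mul_le_mul_of_nonneg_left h3 (by positivity)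
  nlinarith

theorem term_minus {x δ : ℝ} (hx0 : 0 < x) (hx1 : x < 1) (hδ : 0 < δ) (hδ2 : δ ≤ 1 / 2) :
    1 - δ * psi x - 16 * δ ^ 2 ≤ (1 - x ^ (2 - δ - 1)) / (1 - x) := by
  set l : ℝ := -Real.log x with hl
  have hl0 : 0 < l := by
    rw [hl]
    linarith [Real.log_neg hx0 hx1]
  have hx : Real.exp (-l) = x := by
    rw [hl, neg_neg, Real.exp_log hx0]
  have hx' : 0 < 1 - x := by linarith
  have e1 : x ^ (2 - δ - 1) = x * Real.exp (δ * l) := by
    rw [show 2 - δ - 1 = 1 + (-δ) by ring, Real.rpow_add hx0, Real.rpow_one,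
      Real.rpow_def_of_pos hx0]
    congr 2
    rw [hl]
    ring
  have e2 : psi x = x * l / (1 - x) := by
    unfold psi
    rw [if_pos hx1, hl, ← neg_sub 1 x, div_neg]
    ring
  rw [le_div_iff₀ hx', e1, e2]
  have h1 := exp_sub_le (show 0 ≤ δ * l by positivity)
  have h2 := star hl0.le
  rw [hx] at h2
  have h3 : x * Real.exp (δ * l) ≤ Real.exp (-(l / 2)) := by
    nth_rewrite 1 [← hx]
    rw [← Real.exp_add]
    apply Real.exp_le_exp.2
    nlinarith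
  have h4 : l ^ 2 * (x * Real.exp (δ * l)) ≤ 16 * (1 - x) :=
    (mul_le_mul_of_nonneg_left h3 (sq_nonneg l)).trans h2
  have e3 : (1 - δ * (x * l / (1 - x)) - 16 * δ ^ 2) * (1 - x) =
      (1 - x) - δ * (x * l) - 16 * δ ^ 2 * (1 - x) := by
    field_simp
  rw [e3]
  have h5 : x * (Real.exp (δ * l) - 1) ≤ x * (δ * l + (δ * l) ^ 2 * Real.exp (δ * l)) :=
    mul_le_mul_of_nonneg_left h1 hx0.le
  have h6 : δ ^ 2 * (l ^ 2 * (x * Real.exp (δ * l))) ≤ δ ^ 2 * (16 * (1 - x)) :=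
    mul_le_mul_of_nonneg_left h4 (by positivity)
  nlinarith

theorem kap_plus {m : ℕ} (hm : 1 ≤ m) {δ : ℝ} (hδ : 0 < δ) :
    1 - 1 / (m : ℝ) - 8 * δ ^ 2 + δ * vm m ≤ kap m (2 + δ) := by
  have hm0 : (0 : ℝ) < m := by exact_mod_cast hm
  unfold kap vm
  have h1 : ∑ i ∈ Finset.Ioo 0 m, (1 + δ * psi ((i : ℝ) / m) - 8 * δ ^ 2) ≤
      ∑ i ∈ Finset.Ioo 0 m, (1 - ((i : ℝ) / m) ^ (2 + δ - 1)) / (1 - (i : ℝ) / m) := by
    refine Finset.sum_le_sum fun i hi => ?_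
    rw [Finset.mem_Ioo] at hi
    refine term_plus (div_pos (by exact_mod_cast hi.1) hm0) ?_ hδ
    rw [div_lt_one hm0]
    exact_mod_cast hi.2
  have h2 : ∑ i ∈ Finset.Ioo 0 m, (1 + δ * psi ((i : ℝ) / m) - 8 * δ ^ 2) =
      ((m : ℝ) - 1) * (1 - 8 * δ ^ 2) + δ * ∑ i ∈ Finset.Ioo 0 m, psi ((i : ℝ) / m) := by
    rw [Finset.sum_sub_distrib, Finset.sum_add_distrib, ← Finset.mul_sum, Finset.sum_const,
      Finset.sum_const, Nat.card_Ioo, nsmul_eq_mul, nsmul_eq_mul, Nat.sub_zero, Nat.cast_sub hm]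
    push_cast
    ring
  rw [h2] at h1
  have h3 := mul_le_mul_of_nonneg_left h1 (show 0 ≤ 1 / (m : ℝ) by positivity)
  refine le_trans ?_ h3
  have e : 1 / (m : ℝ) * (((m : ℝ) - 1) * (1 - 8 * δ ^ 2) +
      δ * ∑ i ∈ Finset.Ioo 0 m, psi ((i : ℝ) / m)) =
      (1 - 8 * δ ^ 2) - 1 / m * (1 - 8 * δ ^ 2) +
        δ * (1 / m * ∑ i ∈ Finset.Ioo 0 m, psi ((i : ℝ) / m)) := by
    field_simp
  rw [e]
  have : 0 ≤ 1 / (m : ℝ) * (8 * δ ^ 2) := by positivity
  linarith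

theorem kap_minus {m : ℕ} (hm : 1 ≤ m) {δ : ℝ} (hδ : 0 < δ) (hδ2 : δ ≤ 1 / 2) :
    1 - 1 / (m : ℝ) - 16 * δ ^ 2 - δ * vm m ≤ kap m (2 - δ) := by
  have hm0 : (0 : ℝ) < m := by exact_mod_cast hm
  unfold kap vm
  have h1 : ∑ i ∈ Finset.Ioo 0 m, (1 - δ * psi ((i : ℝ) / m) - 16 * δ ^ 2) ≤
      ∑ i ∈ Finset.Ioo 0 m, (1 - ((i : ℝ) / m) ^ (2 - δ - 1)) / (1 - (i : ℝ) / m) := by
    refine Finset.sum_le_sum fun i hi => ?_
    rw [Finset.mem_Ioo] at hi
    refine term_minus (div_pos (by exact_mod_cast hi.1) hm0) ?_ hδ hδ2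
    rw [div_lt_one hm0]
    exact_mod_cast hi.2
  have h2 : ∑ i ∈ Finset.Ioo 0 m, (1 - δ * psi ((i : ℝ) / m) - 16 * δ ^ 2) =
      ((m : ℝ) - 1) * (1 - 16 * δ ^ 2) - δ * ∑ i ∈ Finset.Ioo 0 m, psi ((i : ℝ) / m) := by
    rw [Finset.sum_sub_distrib, Finset.sum_sub_distrib, ← Finset.mul_sum, Finset.sum_const,
      Finset.sum_const, Nat.card_Ioo, nsmul_eq_mul, nsmul_eq_mul, Nat.sub_zero, Nat.cast_sub hm]
    push_cast
    ring
  rw [h2] at h1
  have h3 := mul_le_mul_of_nonneg_left h1 (show 0 ≤ 1 / (m : ℝ) by positivity)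
  refine le_trans ?_ h3
  have e : 1 / (m : ℝ) * (((m : ℝ) - 1) * (1 - 16 * δ ^ 2) -
      δ * ∑ i ∈ Finset.Ioo 0 m, psi ((i : ℝ) / m)) =
      (1 - 16 * δ ^ 2) - 1 / m * (1 - 16 * δ ^ 2) -
        δ * (1 / m * ∑ i ∈ Finset.Ioo 0 m, psi ((i : ℝ) / m)) := by
    field_simp
  rw [e]
  have : 0 ≤ 1 / (m : ℝ) * (16 * δ ^ 2) := by positivity
  linarith

end KAP

/-- BS-KAP. -/
theorem pieceKAP : StmKAP := by
  intro ε hε
  have hv1 := KAP.vv_gt
  have hv2 := KAP.vv_lt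
  set v := KAP.vv with hv
  obtain ⟨η, hη0, hη1, hη2, hη3⟩ : ∃ η : ℝ, 0 < η ∧ η < v - 1 / 2 ∧ η ≤ 1 / 10 ∧ 2 * η ≤ ε * v := by
    refine ⟨min (min ((v - 1 / 2) / 2) (1 / 10)) (ε * v / 2), ?_, ?_, ?_, ?_⟩
    · have : 0 < ε * v := by nlinarith
      exact lt_min (lt_min (by linarith) (by norm_num)) (by linarith)
    · have h1 : min (min ((v - 1 / 2) / 2) (1 / 10)) (ε * v / 2) ≤ (v - 1 / 2) / 2 :=
        (min_le_left _ _).trans (min_le_left _ _)
      linarith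
    · exact (min_le_left _ _).trans (min_le_right _ _)
    · have h1 : min (min ((v - 1 / 2) / 2) (1 / 10)) (ε * v / 2) ≤ ε * v / 2 := min_le_right _ _
      linarith
  set δ : ℝ := η / 64 with hδ
  have hδ0 : 0 < δ := by positivity
  refine ⟨δ, v - η, v + η, hδ0, by linarith, by linarith, by linarith, by linarith, ?_,
    ⌈4 / (δ * η)⌉₊ + 4, by omega, ?_⟩
  · nlinarith
  · intro m hm
    have hm1 : 1 ≤ m := by omega
    have hm0 : (0 : ℝ) < m := by exact_mod_cast hm1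
    have hm2 : 4 / (δ * η) ≤ m := by
      have h1 : ⌈4 / (δ * η)⌉₊ ≤ m := by omega
      exact (Nat.le_ceil _).trans (by exact_mod_cast h1)
    have hm3 : 1 / (m : ℝ) ≤ δ * η / 4 := by
      rw [div_le_iff₀ (by positivity)] at hm2
      rw [div_le_iff₀ hm0]
      linarith
    have h1 := KAP.kap_plus hm1 hδ0
    have h2 := KAP.kap_minus hm1 hδ0 (by linarith)
    have h3 := KAP.vm_le m hm1
    have h4 := KAP.le_vm m hm1
    rw [← hv] at h3 h4
    have hη : η = 64 * δ := by rw [hδ]; ring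
    have h6 : δ * KAP.vm m ≤ δ * v := mul_le_mul_of_nonneg_left h3 hδ0.le
    have h7 : δ * (v - 1 / m) ≤ δ * KAP.vm m := mul_le_mul_of_nonneg_left (by linarith) hδ0.le
    have h8 : δ * (1 / m) ≤ δ * (δ * η / 4) := mul_le_mul_of_nonneg_left hm3 hδ0.le
    have h9 : δ * (δ * η / 4) ≤ δ * η / 4 := by
      have : δ ≤ 1 := by linarith
      nlinarith [mul_pos hδ0 hη0]
    have h10 : δ ^ 2 = δ * η / 64 := by rw [hη]; ring
    constructor
    · nlinarith
    · nlinarith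

end Pool.Agent.R977.BS
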