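import Pool.Agent.R977.BS.Stm

open MeasureTheory Filter ProbabilityTheory
open scoped BigOperators Topology ENNReal NNReal

namespace Pool.Agent.R977.BS

namespace L1

theorem iter {F : ℕ → ℝ → ℝ} (hF : Sys F) (hpair : StmPAIR) {ρ Λ τ g0 : ℝ} {J0 : ℕ}
    (hρ0 : 0 < ρ) (hρ1 : ρ < 1) (hΛ : 1 < Λ) (hτ : 0 < τ) (hg0 : 0 < g0) (hJ0 : 2 ≤ J0)
    (hst : ∀ j : ℕ, J0 ≤ j → ∀ t0 g : ℝ, 0 ≤ t0 → 0 < g → g ≤ g0 →
      (∀ k : ℕ, ρ * (j : ℝ) ≤ (k : ℝ) → g ≤ 1 - F k t0) → Λ * g ≤ 1 - F j (t0 + τ))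
    (K : ℕ) (s : ℕ) :
    ∀ k : ℕ, 1 ≤ k → Real.log J0 + s * Real.log (1 / ρ) ≤ Real.log k →
      min (Λ ^ s * Real.exp (-(K * Real.log Λ))) g0 ≤ 1 - F k (K * Real.log Λ + s * τ) := by
  have hL : 0 < Real.log (1 / ρ) := Real.log_pos (by rw [lt_div_iff₀ hρ0]; linarith)
  have hΛL : 0 < Real.log Λ := Real.log_pos hΛ
  have hJ0' : (2 : ℝ) ≤ J0 := by exact_mod_cast hJ0
  have hge : ∀ (s k : ℕ), 1 ≤ k → Real.log J0 + s * Real.log (1 / ρ) ≤ Real.log k → J0 ≤ k := by
    intro s k hk h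
    have h1 : Real.log J0 ≤ Real.log k :=
      le_trans (by have := mul_nonneg (Nat.cast_nonneg (α := ℝ) s) hL.le; linarith) h
    have h2 : (J0 : ℝ) ≤ k :=
      (Real.log_le_log_iff (by linarith) (by exact_mod_cast hk)).1 h1
    exact_mod_cast h2
  induction s with
  | zero =>
    intro k hk h
    have h1 := hge 0 k hk h
    have h2 := hpair F hF k (le_trans hJ0 h1) (K * Real.log Λ) (by positivity)
    simp only [pow_zero, one_mul, Nat.cast_zero, zero_mul, add_zero]
    exact le_trans (min_le_left _ _) h2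
  | succ s ih =>
    intro j hj h
    have h1 := hge (s + 1) j hj h
    have hpos : 0 < min (Λ ^ s * Real.exp (-(K * Real.log Λ))) g0 := lt_min (by positivity) hg0
    have h2 := hst j h1 (K * Real.log Λ + s * τ) (min (Λ ^ s * Real.exp (-(K * Real.log Λ))) g0)
      (by positivity) hpos (min_le_right _ _) (by
      intro k hk
      have hj' : (0 : ℝ) < j := by exact_mod_cast hj
      have hk0 : (0 : ℝ) < k := lt_of_lt_of_le (by positivity) hk
      apply ih k (by exact_mod_cast hk0)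
      have h3 : Real.log (ρ * j) ≤ Real.log k := Real.log_le_log (by positivity) hk
      rw [Real.log_mul hρ0.ne' hj'.ne'] at h3
      have h4 : Real.log (1 / ρ) = - Real.log ρ := by rw [one_div, Real.log_inv]
      push_cast at h
      rw [h4] at h ⊢
      linarith)
    have h5 : (K * Real.log Λ + ((s + 1 : ℕ) : ℝ) * τ) = K * Real.log Λ + s * τ + τ := by
      push_cast; ring
    rw [h5]
    refine le_trans ?_ h2
    rcases le_total (Λ ^ s * Real.exp (-(K * Real.log Λ))) g0 with h6 | h6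
    · rw [min_eq_left h6]
      refine le_trans (min_le_left _ _) (le_of_eq (by ring))
    · rw [min_eq_right h6]
      refine le_trans (min_le_right _ _) (by nlinarith)

end L1

theorem pieceL1 (hstep : StmSTEP) (hpair : StmPAIR) : StmL1 := by
  intro F hF ε hε hε1
  obtain ⟨ρ, Λ, τ, g0, J0, hρ0, hρ1, hΛ, hτ, hg0, hg01, hJ0, hkey, hst⟩ :=
    hstep (ε / 2) (by linarith)
  have hL : 0 < Real.log (1 / ρ) := Real.log_pos (by rw [lt_div_iff₀ hρ0]; linarith)
  have hΛL : 0 < Real.log Λ := Real.log_pos hΛ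
  have hJ0' : (2 : ℝ) ≤ J0 := by exact_mod_cast hJ0
  set L := Real.log (1 / ρ) with hLdef
  refine ⟨g0, hg0, max J0 ⌈Real.exp ((4 / ε) * (Real.log J0 + L))⌉₊,
    le_trans hJ0 (le_max_left _ _), ?_⟩
  intro k hk t ht0 ht
  have hkJ : J0 ≤ k := le_trans (le_max_left _ _) hk
  have hk2 : (2 : ℝ) ≤ k := by exact_mod_cast le_trans hJ0 hkJ
  have hkexp : Real.exp ((4 / ε) * (Real.log J0 + L)) ≤ k :=
    le_trans (Nat.le_ceil _) (by exact_mod_cast le_trans (le_max_right _ _) hk)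
  have hklog : (4 / ε) * (Real.log J0 + L) ≤ Real.log k := by
    rw [Real.le_log_iff_exp_le (by linarith)]; exact hkexp
  have hlogJ : Real.log J0 ≤ Real.log k :=
    Real.log_le_log (by linarith) (by exact_mod_cast hkJ)
  set K : ℕ := ⌊(Real.log k - Real.log J0) / L⌋₊ with hK
  have hK1 : (K : ℝ) ≤ (Real.log k - Real.log J0) / L :=
    Nat.floor_le (div_nonneg (by linarith) hL.le)
  have hK2 : (Real.log k - Real.log J0) / L < K + 1 := Nat.lt_floor_add_one _
  have hK1' : K * L ≤ Real.log k - Real.log J0 := by rwa [le_div_iff₀ hL] at hK1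
  have hK2' : Real.log k - Real.log J0 < (K + 1) * L := by rwa [div_lt_iff₀ hL] at hK2
  have h1 := L1.iter hF hpair hρ0 hρ1 hΛ hτ hg0 hJ0 (hst F hF) K K k (by omega) (by linarith)
  have h2 : Λ ^ K * Real.exp (-(K * Real.log Λ)) = 1 := by
    rw [← Real.log_pow, Real.exp_neg, Real.exp_log (by positivity), mul_inv_cancel₀ (by positivity)]
  rw [h2, min_eq_right hg01.le] at h1
  have h3 : t ≤ K * Real.log Λ + K * τ := by
    have h4 : (K : ℝ) * ((2 - ε / 2) * L) ≤ K * (Real.log Λ + τ) :=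
      mul_le_mul_of_nonneg_left hkey (Nat.cast_nonneg _)
    have h5 : 4 * (Real.log J0 + L) ≤ ε * Real.log k := by
      have := mul_le_mul_of_nonneg_left hklog hε.le
      have h6 : ε * ((4 / ε) * (Real.log J0 + L)) = 4 * (Real.log J0 + L) := by field_simp
      linarith
    have h7 : 0 ≤ Real.log J0 := Real.log_nonneg (by linarith)
    have h8 : 0 ≤ ε * (Real.log J0 + L) := by positivity
    have h9 : (2 - ε / 2) * (Real.log k - Real.log J0) ≤ (2 - ε / 2) * ((K + 1) * L) :=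
      mul_le_mul_of_nonneg_left hK2'.le (by linarith)
    nlinarith
  have h8 := hF.mono k h3
  linarith

end Pool.Agent.R977.BS
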