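import Pool.Agent.R977.BS.Stm

/-! BS-L2 (helper515). -/

open MeasureTheory Filter ProbabilityTheory
open scoped BigOperators Topology ENNReal NNReal

namespace Pool.Agent.R977.BS

theorem pieceL2 (hL1 : StmL1) (hB : StmBOOST) : StmL2 := by
  intro F hF ε hε hε1
  obtain ⟨g, hg, m1, hm1, hL⟩ := hL1 F hF (ε / 3) (by linarith) (by linarith)
  have hg1 : g ≤ 1 := by
    have h := hL m1 le_rfl 0 le_rfl (by
      have : 0 ≤ Real.log m1 := Real.log_natCast_nonneg m1
      have h2 : 0 ≤ 2 - ε / 3 := by linarith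
      positivity)
    have := hF.nonneg m1 0
    linarith
  set α : ℝ := 1 - ε / 3 with hα
  have hα0 : 0 < α := by rw [hα]; linarith
  have hcast : Tendsto (fun m : ℕ => (m : ℝ)) atTop atTop := tendsto_natCast_atTop_atTop
  have hpow : Tendsto (fun m : ℕ => (m : ℝ) ^ α) atTop atTop := (tendsto_rpow_atTop hα0).comp hcast
  have hneg : Tendsto (fun m : ℕ => 12 * (m : ℝ) ^ (-(ε / 3))) atTop (𝓝 0) := by
    have := ((tendsto_rpow_neg_atTop (by linarith : 0 < ε / 3)).comp hcast).const_mul 12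
    rw [mul_zero] at this
    exact this
  have hbound : Tendsto (fun m : ℕ => (12 * (m : ℝ) ^ (-(ε / 3))) ^ (g / 2)) atTop (𝓝 0) := by
    have := hneg.rpow_const (p := g / 2) (Or.inr (by positivity))
    rwa [Real.zero_rpow (by positivity)] at this
  refine squeeze_zero' (Eventually.of_forall fun m => hF.nonneg _ _) ?_ hbound
  filter_upwards [eventually_ge_atTop 1, hpow.eventually_ge_atTop ((m1 : ℝ) + 1),
    hneg.eventually_le_const (by norm_num : (0 : ℝ) < 1)] with m hm hmα hm12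
  have hm0 : (0 : ℝ) < m := by exact_mod_cast hm
  have hm1' : (1 : ℝ) ≤ m := by exact_mod_cast hm
  set k0 : ℕ := ⌈(m : ℝ) ^ α⌉₊ with hk0
  have hk0ge : (m : ℝ) ^ α ≤ k0 := Nat.le_ceil _
  have hk0le : (k0 : ℝ) < (m : ℝ) ^ α + 1 := Nat.ceil_lt_add_one (by positivity)
  have hpα1 : 1 ≤ (m : ℝ) ^ α := Real.one_le_rpow hm1' hα0.le
  have hk0le2 : (k0 : ℝ) ≤ 2 * (m : ℝ) ^ α := by linarith
  have hk0pos : 0 < (k0 : ℝ) := by linarith
  have hk01 : 1 ≤ k0 := by
    have : (1 : ℝ) ≤ k0 := hpα1.trans hk0ge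
    exact_mod_cast this
  have hm1k : m1 ≤ k0 := by
    have : (m1 : ℝ) ≤ k0 := by linarith
    exact_mod_cast this
  have hratio : 6 * (k0 : ℝ) / m ≤ 12 * (m : ℝ) ^ (-(ε / 3)) := by
    have h1 : (m : ℝ) ^ α = (m : ℝ) ^ (-(ε / 3)) * m := by
      rw [hα, ← Real.rpow_add_one hm0.ne']
      congr 1
      ring
    rw [div_le_iff₀ hm0]
    calc 6 * (k0 : ℝ) ≤ 12 * (m : ℝ) ^ α := by linarith
      _ = 12 * (m : ℝ) ^ (-(ε / 3)) * m := by rw [h1]; ring
  have h6 : 6 * k0 ≤ m := by
    have h1 : 6 * (k0 : ℝ) / m ≤ 1 := hratio.trans hm12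
    rw [div_le_one hm0] at h1
    exact_mod_cast h1
  set T : ℝ := (2 - ε / 3) * Real.log k0 with hT
  have hlog0 : 0 ≤ Real.log k0 := Real.log_natCast_nonneg k0
  have hT0 : 0 ≤ T := mul_nonneg (by linarith) hlog0
  have hboost := hB F hF (1 - g) T k0 (by linarith) (by linarith) hT0 hk01 (by
    intro i hi t ht0 htT
    have h1 := hL i (hm1k.trans hi) t ht0 (htT.trans (by
      rw [hT]
      have h2 : Real.log k0 ≤ Real.log i := Real.log_le_log hk0pos (by exact_mod_cast hi)
      have h3 : 0 ≤ 2 - ε / 3 := by linarith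
      exact mul_le_mul_of_nonneg_left h2 h3))
    linarith) m h6
  have hmono : F m ((2 - ε) * Real.log m) ≤ F m T := by
    refine hF.mono m ?_
    have hlogm : 0 ≤ Real.log m := Real.log_natCast_nonneg m
    have h1 : α * Real.log m ≤ Real.log k0 := by
      rw [← Real.log_rpow hm0]
      exact Real.log_le_log (by positivity) hk0ge
    have h2 : (2 - ε / 3) * (α * Real.log m) ≤ T := by
      rw [hT]
      exact mul_le_mul_of_nonneg_left h1 (by linarith)
    refine le_trans ?_ h2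
    rw [← mul_assoc]
    refine mul_le_mul_of_nonneg_right ?_ hlogm
    rw [hα]
    nlinarith
  refine hmono.trans (hboost.trans ?_)
  have he : (1 - (1 - g)) / 2 = g / 2 := by ring
  rw [he]
  exact Real.rpow_le_rpow (by positivity) hratio (by positivity)

end Pool.Agent.R977.BS
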