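import Pool.Agent.R977.BS.MEAS

/-! # BS-LEAVES: almost surely the tree has `n` leaves -/

open MeasureTheory Filter ProbabilityTheory
open scoped BigOperators Topology ENNReal NNReal

namespace Pool.Agent.R977.BS

namespace LEAVES

/-- If all marks of blocks of size at least `2` are genuine splits, `ctcs n ω` has `n` leaves. -/
lemma leaves_of_good (n : ℕ) : ∀ ω : List Bool × ℕ → ℝ × ℕ, 1 ≤ n →
    (∀ p : List Bool × ℕ, 2 ≤ p.2 → 0 < (ω p).2 ∧ (ω p).2 < p.2) → (ctcs n ω).leaves = n := by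
  induction n using Nat.strong_induction_on with
  | _ n ih =>
    intro ω hn hg
    rw [ctcs]
    by_cases h2 : 2 ≤ n
    · have h := hg ([], n) h2
      rw [dif_pos h]
      unfold BTree.leaves
      rw [ih _ h.2 _ h.1 (fun p hp => hg (false :: p.1, p.2) hp),
        ih _ (Nat.sub_lt (by omega) h.1) _ (Nat.sub_pos_of_lt h.2)
          (fun p hp => hg (true :: p.1, p.2) hp)]
      have := h.2
      simp only at this ⊢
      omega
    · have h1 : n = 1 := by omega
      subst h1
      rw [dif_neg (by omega)]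
      rfl

lemma splitLaw_compl (m : ℕ) : splitLaw m {i : ℕ | ¬ (0 < i ∧ i < m)} = 0 := by
  unfold splitLaw
  rw [Measure.finsetSum_apply]
  refine Finset.sum_eq_zero (fun i hi => ?_)
  rw [Finset.mem_Ioo] at hi
  rw [Measure.smul_apply, Measure.dirac_apply' _ (MeasurableSet.of_discrete), Set.indicator_of_notMem,
    smul_zero]
  simpa using hi

lemma markLaw_compl {m : ℕ} (hm : 2 ≤ m) :
    markLaw m {x : ℝ × ℕ | ¬ (0 < x.2 ∧ x.2 < m)} = 0 := by
  unfold markLaw
  rw [if_pos hm]
  have := MEAS.splitLaw_prob hm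
  have := isProbabilityMeasure_expMeasure (MEAS.hh_pos (m := m - 1) (by omega))
  have h1 : {x : ℝ × ℕ | ¬ (0 < x.2 ∧ x.2 < m)} = Set.univ ×ˢ {i : ℕ | ¬ (0 < i ∧ i < m)} := by
    ext x; simp
  rw [h1, Measure.prod_prod, splitLaw_compl, mul_zero]

lemma ae_good : ∀ᵐ ω ∂PP, ∀ p : List Bool × ℕ, 2 ≤ p.2 → 0 < (ω p).2 ∧ (ω p).2 < p.2 := by
  have := MEAS.markLaw_prob
  rw [ae_all_iff]
  intro p
  by_cases hp : 2 ≤ p.2
  · have hmp := measurePreserving_eval_infinitePi (fun p : List Bool × ℕ => markLaw p.2) p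
    have hms : MeasurableSet {x : ℝ × ℕ | ¬ (0 < x.2 ∧ x.2 < p.2)} := by
      have h1 : {x : ℝ × ℕ | ¬ (0 < x.2 ∧ x.2 < p.2)} =
          Prod.snd ⁻¹' {i : ℕ | ¬ (0 < i ∧ i < p.2)} := rfl
      rw [h1]
      exact measurable_snd (MeasurableSet.of_discrete)
    have h1 := hmp.measure_preimage hms.nullMeasurableSet
    rw [markLaw_compl hp] at h1
    rw [ae_iff]
    refine measure_mono_null ?_ h1
    intro ω hω
    simp only [Set.mem_setOf_eq, Classical.not_imp] at hω
    exact hω.2
  · exact Eventually.of_forall (fun ω h => absurd h hp)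

end LEAVES

theorem pieceLEAVES : StmLEAVES := by
  intro n hn
  filter_upwards [LEAVES.ae_good] with ω hω
  exact LEAVES.leaves_of_good n ω hn hω

end Pool.Agent.R977.BS
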