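import Pool.Agent.R977.BS.Stm

/-! BS-LIM: the limit theorem for the recursive laws (helper886). -/

open MeasureTheory Filter ProbabilityTheory
open scoped BigOperators Topology ENNReal NNReal

namespace Pool.Agent.R977.BS

namespace LIM

/-- The deviation event is contained in the union of two tails. -/
theorem subset_tails {ε δ L : ℝ} (hL : 0 < L) (hδ : δ ≤ ε) :
    {x : ℝ | ε < |x / L - 2|} ⊆ (Set.Iic ((2 + δ) * L))ᶜ ∪ Set.Iic ((2 - δ) * L) := by
  intro x hx
  simp only [Set.mem_setOf_eq] at hx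
  simp only [Set.mem_union, Set.mem_compl_iff, Set.mem_Iic, not_le]
  rcases lt_abs.1 hx with h | h
  · left
    have h1 : 2 + δ < x / L := by linarith
    exact (lt_div_iff₀ hL).1 h1
  · right
    have h1 : x / L < 2 - δ := by linarith
    exact ((div_lt_iff₀ hL).1 h1).le

/-- The first moment bound at `(2+δ) log n`. -/
theorem upper_bound {n : ℕ} (hn : 2 ≤ n) (δ : ℝ) :
    ((n : ℝ) * ((n : ℝ) - 1) / 2) * Real.exp (-((2 + δ) * Real.log n)) ≤ (n : ℝ) ^ (-δ) := by
  have hn0 : (0 : ℝ) < n := by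
    have : 0 < n := by omega
    exact_mod_cast this
  have h1 : Real.exp (-((2 + δ) * Real.log n)) = (n : ℝ) ^ (-δ) / (n : ℝ) ^ 2 := by
    rw [eq_div_iff (by positivity), Real.rpow_def_of_pos hn0, ← Real.rpow_natCast,
      Real.rpow_def_of_pos hn0, ← Real.exp_add]
    congr 1
    push_cast
    ring
  rw [h1]
  have h2 : 0 < (n : ℝ) ^ (-δ) := Real.rpow_pos_of_pos hn0 _
  rw [mul_div_assoc', div_le_iff₀ (by positivity), mul_comm ((n : ℝ) ^ (-δ))]
  apply mul_le_mul_of_nonneg_right _ h2.le
  nlinarith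

end LIM

open LIM in
/-- BS-LIM. -/
theorem pieceLIM (hM : StmMEAS) (hO : StmODE) (hU : StmUP) (hL2 : StmL2) : StmLIM := by
  intro ε hε
  set δ : ℝ := min ε (1 / 2) with hδ
  have δpos : 0 < δ := lt_min hε (by norm_num)
  have δle : δ ≤ ε := min_le_left _ _
  have δlt : δ < 1 := lt_of_le_of_lt (min_le_right _ _) (by norm_num)
  have hlow := hL2 _ hO δ δpos δlt
  have hup : Tendsto (fun n : ℕ => (n : ℝ) ^ (-δ)) atTop (𝓝 0) :=
    (tendsto_rpow_neg_atTop δpos).comp tendsto_natCast_atTop_atTop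
  have hsum : Tendsto (fun n : ℕ => ENNReal.ofReal ((n : ℝ) ^ (-δ)) + ENNReal.ofReal
      ((heightLaw n).real (Set.Iic ((2 - δ) * Real.log n)))) atTop (𝓝 0) := by
    have h1 := (ENNReal.tendsto_ofReal hup).add (ENNReal.tendsto_ofReal hlow)
    simpa using h1
  refine tendsto_of_tendsto_of_tendsto_of_le_of_le' tendsto_const_nhds hsum
    (Eventually.of_forall fun _ => zero_le) ?_
  filter_upwards [eventually_ge_atTop 2] with n hn
  haveI := hM.2.2 n
  have hlog : 0 < Real.log n := Real.log_pos (by exact_mod_cast hn)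
  refine le_trans (measure_mono (subset_tails hlog δle)) (le_trans (measure_union_le _ _) ?_)
  apply add_le_add
  · have h1 := hU _ hO n hn ((2 + δ) * Real.log n) (by positivity)
    have h2 := upper_bound hn δ
    have h3 : (heightLaw n).real (Set.Iic ((2 + δ) * Real.log n))ᶜ
        = 1 - (heightLaw n).real (Set.Iic ((2 + δ) * Real.log n)) := by
      rw [measureReal_compl measurableSet_Iic]
      simp
    rw [← ofReal_measureReal (μ := heightLaw n)]
    apply ENNReal.ofReal_le_ofReal
    rw [h3]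
    exact le_trans h1 h2
  · rw [ofReal_measureReal]

end Pool.Agent.R977.BS
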