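import Pool.Agent.R977.BS.Stm

/-! Piece LOP: the action of the linear operator on powers. -/

open scoped BigOperators

namespace Pool.Agent.R977.BS

namespace LOP

/-- `Σ_{0<i<m} 1/(m-i) = h_{m-1}`. -/
theorem sum_inv (m : ℕ) :
    ∑ i ∈ Finset.Ioo 0 m, 1 / ((m : ℝ) - (i : ℝ)) = hh (m - 1) := by
  rw [← sum_ww]
  have h1 : ∀ i ∈ Finset.Ioo 0 m, ww m i
      = 1 / 2 * (1 / ((m : ℝ) - (i : ℝ))) + 1 / 2 * (1 / ((m : ℝ) - ((m - i : ℕ) : ℝ))) := by
    intro i hi
    rw [Finset.mem_Ioo] at hi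
    unfold ww
    have h2 : (0 : ℝ) < i := by exact_mod_cast hi.1
    have h3 : (i : ℝ) < m := by exact_mod_cast hi.2
    have h4 : (m : ℝ) - i ≠ 0 := by linarith
    rw [Nat.cast_sub hi.2.le]
    have h5 : (m : ℝ) - ((m : ℝ) - i) = i := by ring
    rw [h5]
    field_simp
    ring
  rw [Finset.sum_congr rfl h1, Finset.sum_add_distrib, ← Finset.mul_sum, ← Finset.mul_sum,
    sum_refl m (fun i => 1 / ((m : ℝ) - (i : ℝ)))]
  ring

end LOP

theorem pieceLOP : StmLOP := by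
  intro m p s hm hs
  have hm0 : (0 : ℝ) < m := by
    have : 0 < m := by omega
    exact_mod_cast this
  have hk : kap m p = ∑ i ∈ Finset.Ioo 0 m,
      (1 - ((i : ℝ) / m) ^ (p - 1)) / ((m : ℝ) - (i : ℝ)) := by
    unfold kap
    rw [Finset.mul_sum]
    apply Finset.sum_congr rfl
    intro i hi
    rw [Finset.mem_Ioo] at hi
    have h3 : (i : ℝ) < m := by exact_mod_cast hi.2
    have h4 : (m : ℝ) - i ≠ 0 := by linarith
    have h5 : 1 - (i : ℝ) / m = ((m : ℝ) - i) / m := by field_simp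
    rw [h5]
    field_simp
  rw [← LOP.sum_inv m, hk, ← Finset.sum_sub_distrib, Finset.sum_mul]
  apply Finset.sum_congr rfl
  intro i hi
  rw [Finset.mem_Ioo] at hi
  have h2 : (0 : ℝ) < i := by exact_mod_cast hi.1
  have h3 : (i : ℝ) < m := by exact_mod_cast hi.2
  have h4 : (0 : ℝ) < (m : ℝ) - i := by linarith
  have h5 : (i : ℝ) / s = ((i : ℝ) / m) * ((m : ℝ) / s) := by field_simp
  have h6 : ((i : ℝ) / s) ^ p = ((i : ℝ) / m) ^ p * ((m : ℝ) / s) ^ p := by
    rw [h5, Real.mul_rpow (by positivity) (by positivity)]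
  have h7 : ((i : ℝ) / m) ^ p = ((i : ℝ) / m) ^ (p - 1) * ((i : ℝ) / m) := by
    have h8 : (0 : ℝ) < (i : ℝ) / m := by positivity
    rw [Real.rpow_sub_one h8.ne']
    field_simp
  rw [h6, h7]
  unfold ww
  field_simp
  ring

end Pool.Agent.R977.BS
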