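import Pool.Agent.R977.BS.Stm

/-! # BS-MEAS: basic measure facts -/

open MeasureTheory Filter ProbabilityTheory
open scoped BigOperators Topology ENNReal NNReal

namespace Pool.Agent.R977.BS

namespace MEAS

lemma hh_pos {m : ℕ} (hm : 1 ≤ m) : 0 < hh m := by
  unfold hh
  apply Finset.sum_pos
  · intro i _; positivity
  · exact Finset.nonempty_range_iff.2 (by omega)

lemma qq_eq (m i : ℕ) : qq m i = ww m i / hh (m - 1) := by
  unfold qq ww
  rw [div_mul_div_comm, div_div, mul_one]
  congr 1
  ring

lemma sum_qq {m : ℕ} (hm : 2 ≤ m) : ∑ i ∈ Finset.Ioo 0 m, qq m i = 1 := by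
  simp_rw [qq_eq]
  rw [← Finset.sum_div, sum_ww]
  exact div_self (hh_pos (by omega)).ne'

lemma qq_nonneg {m i : ℕ} (hi : i ∈ Finset.Ioo 0 m) : 0 ≤ qq m i := by
  rw [qq_eq]
  refine div_nonneg (ww_nonneg hi) ?_
  rw [Finset.mem_Ioo] at hi
  exact (hh_pos (by omega)).le

lemma sum_ofReal_qq {m : ℕ} (hm : 2 ≤ m) :
    ∑ i ∈ Finset.Ioo 0 m, ENNReal.ofReal (qq m i) = 1 := by
  rw [← ENNReal.ofReal_sum_of_nonneg (fun i hi => qq_nonneg hi), sum_qq hm, ENNReal.ofReal_one]

lemma splitLaw_prob {m : ℕ} (hm : 2 ≤ m) : IsProbabilityMeasure (splitLaw m) := by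
  constructor
  unfold splitLaw
  rw [Measure.finset_sum_apply]
  simp only [Measure.smul_apply, measure_univ, smul_eq_mul, mul_one]
  exact sum_ofReal_qq hm

lemma markLaw_prob (m : ℕ) : IsProbabilityMeasure (markLaw m) := by
  unfold markLaw
  split_ifs with h
  · haveI := splitLaw_prob h
    haveI := isProbabilityMeasure_expMeasure (hh_pos (m := m - 1) (by omega))
    infer_instance
  · infer_instance

lemma heightLaw_prob (n : ℕ) : IsProbabilityMeasure (heightLaw n) := by
  induction n using Nat.strong_induction_on with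
  | _ n ih =>
    rw [heightLaw]
    split_ifs with h
    · infer_instance
    · constructor
      rw [Measure.finset_sum_apply]
      have h1 : ∀ i ∈ (Finset.Ioo 0 n).attach,
          (ENNReal.ofReal (qq n i.1) • Measure.map (fun p : ℝ × (ℝ × ℝ) => p.1 + max p.2.1 p.2.2)
            ((expMeasure (hh (n - 1))).prod ((heightLaw i.1).prod (heightLaw (n - i.1)))))
              Set.univ = ENNReal.ofReal (qq n i.1) := by
        intro i _
        have hi := Finset.mem_Ioo.1 i.2
        haveI := ih i.1 hi.2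
        haveI := ih (n - i.1) (by omega)
        haveI := isProbabilityMeasure_expMeasure (hh_pos (m := n - 1) (by omega))
        have hm : Measurable (fun p : ℝ × (ℝ × ℝ) => p.1 + max p.2.1 p.2.2) := by fun_prop
        rw [Measure.smul_apply, Measure.map_apply hm MeasurableSet.univ, Set.preimage_univ,
          measure_univ, smul_eq_mul, mul_one]
      rw [Finset.sum_congr rfl h1, Finset.sum_attach _ (fun i => ENNReal.ofReal (qq n i))]
      exact sum_ofReal_qq (by omega)

end MEAS

theorem pieceMEAS : StmMEAS :=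
  ⟨fun _ hm => MEAS.splitLaw_prob hm, MEAS.markLaw_prob, MEAS.heightLaw_prob⟩

end Pool.Agent.R977.BS
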