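import Pool.Agent.R977.BS.Stm

open MeasureTheory Filter ProbabilityTheory
open scoped BigOperators Topology ENNReal NNReal

namespace Pool.Agent.R977.BS

namespace ODE

theorem hh_pos {m : ℕ} (hm : 1 ≤ m) : 0 < hh m := by
  unfold hh
  apply Finset.sum_pos
  · intro i _; positivity
  · exact ⟨0, Finset.mem_range.2 (by omega)⟩

theorem heightLaw_ge {n : ℕ} (hn : 2 ≤ n) : heightLaw n =
    ∑ i ∈ Finset.Ioo 0 n, ENNReal.ofReal (qq n i) •
      Measure.map (fun p : ℝ × (ℝ × ℝ) => p.1 + max p.2.1 p.2.2)
        ((expMeasure (hh (n - 1))).prod ((heightLaw i).prod (heightLaw (n - i)))) := by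
  rw [heightLaw, if_neg (by omega)]
  exact Finset.sum_attach (Finset.Ioo 0 n) (fun i => ENNReal.ofReal (qq n i) •
      Measure.map (fun p : ℝ × (ℝ × ℝ) => p.1 + max p.2.1 p.2.2)
        ((expMeasure (hh (n - 1))).prod ((heightLaw i).prod (heightLaw (n - i)))))

theorem heightLaw_le {n : ℕ} (hn : n ≤ 1) : heightLaw n = Measure.dirac 0 := by
  rw [heightLaw, if_pos hn]

theorem expMeasure_eq (r : ℝ) : expMeasure r = volume.withDensity (exponentialPDF r) := rfl

theorem qq_nonneg {n i : ℕ} (hi : i ∈ Finset.Ioo 0 n) : 0 ≤ qq n i := by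
  rw [Finset.mem_Ioo] at hi
  unfold qq
  have h1 : (0 : ℝ) < i := by exact_mod_cast hi.1
  have h2 : (i : ℝ) < n := by exact_mod_cast hi.2
  have h3 : (0 : ℝ) < (n : ℝ) - i := by linarith
  have h4 := hh_pos (m := n - 1) (by omega)
  positivity

theorem hh_mul_qq {n i : ℕ} (hi : i ∈ Finset.Ioo 0 n) : hh (n - 1) * qq n i = ww n i := by
  rw [Finset.mem_Ioo] at hi
  unfold qq ww
  have h1 : (0 : ℝ) < i := by exact_mod_cast hi.1
  have h2 : (i : ℝ) < n := by exact_mod_cast hi.2
  have h3 : (n : ℝ) - i ≠ 0 := by linarith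
  have h4 := hh_pos (m := n - 1) (by omega)
  field_simp

/-- renewal formula, measure form -/
theorem map_Iic (μ ν : Measure ℝ) [IsProbabilityMeasure μ] [IsProbabilityMeasure ν] {r : ℝ} (hr : 0 < r)
    (t : ℝ) : (Measure.map (fun p : ℝ × (ℝ × ℝ) => p.1 + max p.2.1 p.2.2)
        ((expMeasure r).prod (μ.prod ν))).real (Set.Iic t)
      = ∫ s, μ.real (Set.Iic (t - s)) * ν.real (Set.Iic (t - s)) ∂(expMeasure r) := by
  have := isProbabilityMeasure_expMeasure hr
  have hmeas : Measurable (fun p : ℝ × (ℝ × ℝ) => p.1 + max p.2.1 p.2.2) := by fun_prop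
  have h0 : (Measure.map (fun p : ℝ × (ℝ × ℝ) => p.1 + max p.2.1 p.2.2)
        ((expMeasure r).prod (μ.prod ν))) (Set.Iic t)
      = ∫⁻ s, μ (Set.Iic (t - s)) * ν (Set.Iic (t - s)) ∂(expMeasure r) := by
    rw [Measure.map_apply hmeas measurableSet_Iic, Measure.prod_apply (hmeas measurableSet_Iic)]
    apply lintegral_congr
    intro s
    have : (Prod.mk s ⁻¹' ((fun p : ℝ × (ℝ × ℝ) => p.1 + max p.2.1 p.2.2) ⁻¹' Set.Iic t))
        = Set.Iic (t - s) ×ˢ Set.Iic (t - s) := by
      ext p
      simp only [Set.mem_preimage, Set.mem_Iic, Set.mem_prod]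
      constructor
      · intro h
        have h1 := le_max_left p.1 p.2
        have h2 := le_max_right p.1 p.2
        constructor <;> linarith
      · rintro ⟨h1, h2⟩
        have := max_le h1 h2
        linarith
    rw [this, Measure.prod_prod]
  rw [measureReal_def, h0]
  rw [← integral_toReal]
  · simp only [ENNReal.toReal_mul]; rfl
  · apply Measurable.aemeasurable
    apply Measurable.mul
    · exact (Antitone.measurable (f := fun s => μ (Set.Iic (t - s)))
        (fun a b hab => measure_mono (Set.Iic_subset_Iic.2 (by linarith))))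
    · exact (Antitone.measurable (f := fun s => ν (Set.Iic (t - s)))
        (fun a b hab => measure_mono (Set.Iic_subset_Iic.2 (by linarith))))
  · apply Eventually.of_forall
    intro s
    exact ENNReal.mul_lt_top (measure_lt_top _ _) (measure_lt_top _ _)

/-- integral against the exponential law -/
theorem exp_integral {r : ℝ} (hr : 0 < r) (g : ℝ → ℝ) (hg0 : ∀ u, u < 0 → g u = 0) {t : ℝ} (ht : 0 ≤ t) :
    ∫ s, g (t - s) ∂(expMeasure r)
      = Real.exp (-(r * t)) * ∫ u in (0 : ℝ)..t, r * Real.exp (r * u) * g u := by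
  rw [expMeasure_eq, integral_withDensity_eq_integral_toReal_smul]
  · have h1 : (∫ x, (exponentialPDF r x).toReal • g (t - x))
        = ∫ x in Set.Icc 0 t, (r * Real.exp (-(r * x))) * g (t - x) := by
      rw [← integral_indicator measurableSet_Icc]
      apply integral_congr_ae
      apply Eventually.of_forall
      intro x
      by_cases hx : x ∈ Set.Icc 0 t
      · simp only [Set.indicator_of_mem hx]
        rw [exponentialPDF_of_nonneg hx.1, ENNReal.toReal_ofReal (by positivity), smul_eq_mul]
      · simp only [Set.indicator_of_notMem hx]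
        rw [Set.mem_Icc, not_and_or, not_le, not_le] at hx
        rcases hx with hx | hx
        · rw [exponentialPDF_of_neg hx]; simp
        · rw [hg0 (t - x) (by linarith)]; simp
    rw [h1, integral_Icc_eq_integral_Ioc, ← intervalIntegral.integral_of_le ht]
    have h2 : ∀ x : ℝ, r * Real.exp (-(r * x)) * g (t - x)
        = (fun u => Real.exp (-(r * t)) * (r * Real.exp (r * u) * g u)) (t - x) := by
      intro x
      simp only
      have : Real.exp (-(r * x)) = Real.exp (-(r * t)) * Real.exp (r * (t - x)) := by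
        rw [← Real.exp_add]; congr 1; ring
      rw [this]; ring
    simp_rw [h2]
    rw [intervalIntegral.integral_comp_sub_left
      (fun u => Real.exp (-(r * t)) * (r * Real.exp (r * u) * g u)) t]
    simp only [sub_self, sub_zero]
    rw [intervalIntegral.integral_const_mul]
  · unfold exponentialPDF; fun_prop
  · apply Eventually.of_forall; intro x; exact ENNReal.ofReal_lt_top

theorem exp_integral_neg {r : ℝ} (g : ℝ → ℝ) (hg0 : ∀ u, u < 0 → g u = 0) {t : ℝ} (ht : t < 0) :
    ∫ s, g (t - s) ∂(expMeasure r) = 0 := by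
  rw [expMeasure_eq, integral_withDensity_eq_integral_toReal_smul]
  · rw [← integral_zero ℝ ℝ]
    apply integral_congr_ae
    apply Eventually.of_forall
    intro x
    simp only
    rcases lt_or_ge x 0 with hx | hx
    · rw [exponentialPDF_of_neg hx]; simp
    · rw [hg0 (t - x) (by linarith)]; simp
  · unfold exponentialPDF; fun_prop
  · apply Eventually.of_forall; intro x; exact ENNReal.ofReal_lt_top

/-- renewal formula -/
theorem renewal (hM : StmMEAS) {n : ℕ} (hn : 2 ≤ n) (t : ℝ) : (heightLaw n).real (Set.Iic t)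
    = ∑ i ∈ Finset.Ioo 0 n, qq n i * ∫ s, (heightLaw i).real (Set.Iic (t - s)) *
      (heightLaw (n - i)).real (Set.Iic (t - s)) ∂(expMeasure (hh (n - 1))) := by
  have hP := hM.2.2
  have hr := hh_pos (m := n - 1) (by omega)
  have hE := isProbabilityMeasure_expMeasure hr
  rw [heightLaw_ge hn, measureReal_def, Measure.finsetSum_apply]
  rw [ENNReal.toReal_sum]
  · apply Finset.sum_congr rfl
    intro i hi
    rw [Measure.smul_apply, smul_eq_mul, ENNReal.toReal_mul, ENNReal.toReal_ofReal (qq_nonneg hi)]
    congr 1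
    exact map_Iic (heightLaw i) (heightLaw (n - i)) hr t
  · intro i hi
    rw [Measure.smul_apply, smul_eq_mul]
    apply ENNReal.mul_ne_top ENNReal.ofReal_ne_top
    have hmeas : Measurable (fun p : ℝ × (ℝ × ℝ) => p.1 + max p.2.1 p.2.2) := by fun_prop
    have := Measure.isProbabilityMeasure_map (μ := (expMeasure (hh (n - 1))).prod
      ((heightLaw i).prod (heightLaw (n - i)))) hmeas.aemeasurable
    exact measure_ne_top _ _

theorem heightLaw_neg (hM : StmMEAS) (n : ℕ) : ∀ u : ℝ, u < 0 → (heightLaw n).real (Set.Iic u) = 0 := by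
  induction n using Nat.strong_induction_on with
  | _ n ih =>
  intro u hu
  rcases Nat.lt_or_ge n 2 with hn | hn
  · rw [heightLaw_le (by omega), measureReal_def, Measure.dirac_apply' _ measurableSet_Iic]
    simp [not_le.2 hu]
  · rw [renewal hM hn]
    apply Finset.sum_eq_zero
    intro i hi
    rw [Finset.mem_Ioo] at hi
    rw [exp_integral_neg (fun x => (heightLaw i).real (Set.Iic x) * (heightLaw (n - i)).real (Set.Iic x)) _ hu]
    · simp
    · intro x hx
      rw [ih i hi.2 x hx]; simp

theorem real_one {n : ℕ} (hn : n ≤ 1) {t : ℝ} (ht : 0 ≤ t) : (heightLaw n).real (Set.Iic t) = 1 := by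
  rw [heightLaw_le hn, measureReal_def, Measure.dirac_apply' _ measurableSet_Iic]
  simp [ht]

theorem formula (hM : StmMEAS) {n : ℕ} (hn : 2 ≤ n) {t : ℝ} (ht : 0 ≤ t) : (heightLaw n).real (Set.Iic t)
    = Real.exp (-(hh (n - 1) * t)) * ∑ i ∈ Finset.Ioo 0 n, qq n i *
      ∫ u in (0 : ℝ)..t, hh (n - 1) * Real.exp (hh (n - 1) * u) *
        ((heightLaw i).real (Set.Iic u) * (heightLaw (n - i)).real (Set.Iic u)) := by
  rw [renewal hM hn, Finset.mul_sum]
  apply Finset.sum_congr rfl
  intro i hi
  rw [exp_integral (hh_pos (by omega))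
    (fun x => (heightLaw i).real (Set.Iic x) * (heightLaw (n - i)).real (Set.Iic x)) _ ht]
  · ring
  · intro x hx
    rw [heightLaw_neg hM i x hx]; simp

theorem mono (hM : StmMEAS) (n : ℕ) : Monotone (fun t => (heightLaw n).real (Set.Iic t)) := by
  have hP := hM.2.2
  intro a b hab
  exact measureReal_mono (Set.Iic_subset_Iic.2 hab)

theorem intInt (hM : StmMEAS) (n i j : ℕ) (a b : ℝ) : IntervalIntegrable (fun u => hh n * Real.exp (hh n * u) *
        ((heightLaw i).real (Set.Iic u) * (heightLaw j).real (Set.Iic u))) volume a b := by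
  apply IntervalIntegrable.continuousOn_mul
  · apply Monotone.intervalIntegrable
    intro x y hxy
    exact mul_le_mul (mono hM i hxy) (mono hM j hxy) measureReal_nonneg measureReal_nonneg
  · fun_prop

theorem cont (hM : StmMEAS) (n : ℕ) : ContinuousOn (fun t => (heightLaw n).real (Set.Iic t)) (Set.Ici 0) := by
  rcases Nat.lt_or_ge n 2 with hn | hn
  · apply (continuousOn_const (c := (1 : ℝ))).congr
    intro t ht
    exact real_one (by omega) ht
  · have : ContinuousOn (fun t => Real.exp (-(hh (n - 1) * t)) * ∑ i ∈ Finset.Ioo 0 n, qq n i *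
      ∫ u in (0 : ℝ)..t, hh (n - 1) * Real.exp (hh (n - 1) * u) *
        ((heightLaw i).real (Set.Iic u) * (heightLaw (n - i)).real (Set.Iic u))) (Set.Ici 0) := by
      apply Continuous.continuousOn
      apply Continuous.mul (by fun_prop)
      apply continuous_finsetSum
      intro i _
      apply Continuous.mul continuous_const
      exact intervalIntegral.continuous_primitive (fun a b => intInt hM (n - 1) i (n - i) a b) 0
    exact this.congr (fun t ht => formula hM hn ht)

theorem deriv (hM : StmMEAS) {n : ℕ} (hn : 2 ≤ n) {t : ℝ} (ht : 0 < t) :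
    HasDerivAt (fun t => (heightLaw n).real (Set.Iic t))
    (∑ i ∈ Finset.Ioo 0 n, ww n i * ((heightLaw i).real (Set.Iic t) * (heightLaw (n - i)).real (Set.Iic t))
      - hh (n - 1) * (heightLaw n).real (Set.Iic t)) t := by
  have hS : ∀ i ∈ Finset.Ioo 0 n, HasDerivAt (fun t => qq n i *
      ∫ u in (0 : ℝ)..t, hh (n - 1) * Real.exp (hh (n - 1) * u) *
        ((heightLaw i).real (Set.Iic u) * (heightLaw (n - i)).real (Set.Iic u)))
      (qq n i * (hh (n - 1) * Real.exp (hh (n - 1) * t) *
        ((heightLaw i).real (Set.Iic t) * (heightLaw (n - i)).real (Set.Iic t)))) t := by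
    intro i _
    apply HasDerivAt.const_mul
    apply intervalIntegral.integral_hasDerivAt_right (intInt hM (n - 1) i (n - i) 0 t)
    · apply StronglyMeasurable.stronglyMeasurableAtFilter
      apply Measurable.stronglyMeasurable
      have h1 := (mono hM i).measurable
      have h2 := (mono hM (n - i)).measurable
      exact (by fun_prop : Measurable (fun u : ℝ => hh (n - 1) * Real.exp (hh (n - 1) * u))).mul (h1.mul h2)
    · have h1 : ContinuousAt (fun t => (heightLaw i).real (Set.Iic t)) t :=
        (cont hM i).continuousAt (Ici_mem_nhds ht)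
      have h2 : ContinuousAt (fun t => (heightLaw (n - i)).real (Set.Iic t)) t :=
        (cont hM (n - i)).continuousAt (Ici_mem_nhds ht)
      exact (by fun_prop : ContinuousAt (fun u : ℝ => hh (n - 1) * Real.exp (hh (n - 1) * u)) t).mul (h1.mul h2)
  have hT := HasDerivAt.fun_sum hS
  have hexp : HasDerivAt (fun t => Real.exp (-(hh (n - 1) * t)))
      (Real.exp (-(hh (n - 1) * t)) * (-(hh (n - 1) * 1))) t :=
    ((hasDerivAt_id t).const_mul (hh (n - 1))).neg.exp
  have hprod := hexp.mul hT
  have heq : (fun t => (heightLaw n).real (Set.Iic t)) =ᶠ[𝓝 t]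
      ((fun t => Real.exp (-(hh (n - 1) * t))) * fun t => ∑ i ∈ Finset.Ioo 0 n, qq n i *
      ∫ u in (0 : ℝ)..t, hh (n - 1) * Real.exp (hh (n - 1) * u) *
        ((heightLaw i).real (Set.Iic u) * (heightLaw (n - i)).real (Set.Iic u))) := by
    filter_upwards [Ioi_mem_nhds ht] with s hs
    exact formula hM hn (le_of_lt hs)
  have h3 := hprod.congr_of_eventuallyEq heq
  have h4 := formula hM hn ht.le
  have h6 : (∑ i ∈ Finset.Ioo 0 n, ww n i * ((heightLaw i).real (Set.Iic t) * (heightLaw (n - i)).real (Set.Iic t))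
      - hh (n - 1) * (heightLaw n).real (Set.Iic t)) = (Real.exp (-(hh (n - 1) * t)) * -(hh (n - 1) * 1) *
        ∑ i ∈ Finset.Ioo 0 n,
          qq n i *
            ∫ (u : ℝ) in 0..t,
              hh (n - 1) * Real.exp (hh (n - 1) * u) *
                ((heightLaw i).real (Set.Iic u) * (heightLaw (n - i)).real (Set.Iic u))) +
      Real.exp (-(hh (n - 1) * t)) *
        ∑ i ∈ Finset.Ioo 0 n,
          qq n i *
            (hh (n - 1) * Real.exp (hh (n - 1) * t) *
              ((heightLaw i).real (Set.Iic t) * (heightLaw (n - i)).real (Set.Iic t))) := ?_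
  · rw [h6]; exact h3
  rw [h4]
  have h5 : ∀ i ∈ Finset.Ioo 0 n, ww n i * ((heightLaw i).real (Set.Iic t) * (heightLaw (n - i)).real (Set.Iic t))
      = Real.exp (-(hh (n - 1) * t)) * (qq n i * (hh (n - 1) * Real.exp (hh (n - 1) * t) *
        ((heightLaw i).real (Set.Iic t) * (heightLaw (n - i)).real (Set.Iic t)))) := by
    intro i hi
    rw [← hh_mul_qq hi]
    have : Real.exp (-(hh (n - 1) * t)) * Real.exp (hh (n - 1) * t) = 1 := by
      rw [← Real.exp_add]; simp
    calc hh (n - 1) * qq n i * ((heightLaw i).real (Set.Iic t) * (heightLaw (n - i)).real (Set.Iic t))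
        = (Real.exp (-(hh (n - 1) * t)) * Real.exp (hh (n - 1) * t)) * (hh (n - 1) * qq n i *
          ((heightLaw i).real (Set.Iic t) * (heightLaw (n - i)).real (Set.Iic t))) := by rw [this]; ring
      _ = _ := by ring
  rw [Finset.sum_congr rfl h5, ← Finset.mul_sum]
  ring

end ODE

theorem pieceODE (hM : StmMEAS) : StmODE := by
  have hP := hM.2.2
  constructor
  · intro t ht; exact ODE.real_one le_rfl ht
  · intro m hm
    rw [ODE.formula hM hm le_rfl]
    simp
  · intro m t; exact measureReal_nonneg
  · intro m t; exact measureReal_le_one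
  · intro m; exact ODE.mono hM m
  · intro m; exact ODE.cont hM m
  · intro m hm t ht; exact ODE.deriv hM hm ht

end Pool.Agent.R977.BS
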