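import Pool.Agent.R977.BS.Stm

/-! Piece PAIR: lower bound by one pair of leaves. -/

open scoped BigOperators

namespace Pool.Agent.R977.BS

namespace PAIR

theorem hh_nonneg (m : ℕ) : 0 ≤ hh m := by
  unfold hh
  exact Finset.sum_nonneg fun i _ => by positivity

theorem hh_one : hh 1 = 1 := by simp [hh]

theorem ww_two_one : ww 2 1 = 1 := by
  unfold ww
  norm_num

theorem sum_le {F : ℕ → ℝ → ℝ} (hF : Sys F) {m : ℕ} (hm : 2 ≤ m) {u : ℝ} (hu : 0 ≤ u)
    (ih : ∀ k, 2 ≤ k → k < m → F k u ≤ 1 - Real.exp (-u)) :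
    ∑ i ∈ Finset.Ioo 0 m, ww m i * (F i u * F (m - i) u)
      ≤ Real.exp (-u) + hh (m - 1) * (1 - Real.exp (-u)) := by
  have he : Real.exp (-u) ≤ 1 := by
    rw [Real.exp_le_one_iff]; linarith
  rcases Nat.lt_or_ge 2 m with h3 | h3
  · have h1 : ∀ i ∈ Finset.Ioo 0 m, ww m i * (F i u * F (m - i) u)
        ≤ ww m i * (1 - Real.exp (-u)) := by
      intro i hi
      apply mul_le_mul_of_nonneg_left _ (ww_nonneg hi)
      rw [Finset.mem_Ioo] at hi
      rcases Nat.lt_or_ge i 2 with hi2 | hi2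
      · have h4 := ih (m - i) (by omega) (by omega)
        calc F i u * F (m - i) u ≤ 1 * F (m - i) u :=
              mul_le_mul_of_nonneg_right (hF.le_one _ _) (hF.nonneg _ _)
          _ = F (m - i) u := one_mul _
          _ ≤ _ := h4
      · have h4 := ih i hi2 hi.2
        calc F i u * F (m - i) u ≤ F i u * 1 :=
              mul_le_mul_of_nonneg_left (hF.le_one _ _) (hF.nonneg _ _)
          _ = F i u := mul_one _
          _ ≤ _ := h4
    calc ∑ i ∈ Finset.Ioo 0 m, ww m i * (F i u * F (m - i) u)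
        ≤ ∑ i ∈ Finset.Ioo 0 m, ww m i * (1 - Real.exp (-u)) := Finset.sum_le_sum h1
      _ = hh (m - 1) * (1 - Real.exp (-u)) := by rw [← Finset.sum_mul, sum_ww]
      _ ≤ _ := by linarith [Real.exp_pos (-u)]
  · have h2 : m = 2 := by omega
    subst h2
    have h4 : Finset.Ioo 0 2 = {1} := by decide
    rw [h4, Finset.sum_singleton, ww_two_one]
    have h5 : (2 - 1 : ℕ) = 1 := rfl
    rw [h5, hF.one u hu, hh_one]
    linarith

end PAIR

theorem piecePAIR : StmPAIR := by
  intro F hF m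
  suffices H : 2 ≤ m → ∀ t : ℝ, 0 ≤ t → F m t ≤ 1 - Real.exp (-t) by
    intro hm t ht
    linarith [H hm t ht]
  induction m using Nat.strong_induction_on with
  | _ m ih =>
    intro hm t ht
    refine cmp (h := hh (m - 1)) (φ := F m) (ψ := fun u => 1 - Real.exp (-u))
      (φ' := fun u => ∑ i ∈ Finset.Ioo 0 m, ww m i * (F i u * F (m - i) u) - hh (m - 1) * F m u)
      (ψ' := fun u => Real.exp (-u)) ht ?_ ?_ ?_ ?_ ?_ ?_
    · exact (hF.cont m).mono fun u hu => hu.1
    · fun_prop
    · intro u hu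
      exact hF.deriv m hm u hu.1
    · intro u _
      have h1 : HasDerivAt (fun u : ℝ => Real.exp (-u)) (Real.exp (-u) * (-1)) u :=
        (hasDerivAt_neg u).exp
      have h2 := h1.const_sub 1
      simpa using h2
    · simp [hF.zero m hm]
    · intro u hu
      have h1 := PAIR.sum_le hF hm hu.1.le fun k hk hkm => ih k hkm hk u hu.1.le
      show _ + _ ≤ _ + _
      linarith

end Pool.Agent.R977.BS
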