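import Pool.Agent.R977.BS.Stm

/-! Piece STEP: the gain in one step. -/

open MeasureTheory Filter ProbabilityTheory
open scoped BigOperators Topology ENNReal NNReal

namespace Pool.Agent.R977.BS

namespace STEPaux

lemma zz_cont (A B G δ η v1 v2 x : ℝ) : Continuous (fun t => zz A B G δ η v1 v2 x t) := by
  unfold zz
  fun_prop

lemma exp_deriv (c t : ℝ) :
    HasDerivAt (fun t => Real.exp (-(c * t))) (-c * Real.exp (-(c * t))) t := by
  have h1 : HasDerivAt (fun t : ℝ => -(c * t)) (-(c * 1)) t :=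
    ((hasDerivAt_id t).const_mul c).neg
  have h2 := h1.exp
  have h3 : Real.exp (-(c * t)) * (-(c * 1)) = -c * Real.exp (-(c * t)) := by ring
  rw [h3] at h2
  exact h2

lemma zz_deriv (A B G δ η v1 v2 x t : ℝ) :
    HasDerivAt (fun t => zz A B G δ η v1 v2 x t) (zzd A B G δ η v1 v2 x t) t := by
  have h1 := (exp_deriv (1 + δ * η) t).const_mul (A * x ^ (2 : ℝ))
  have h2 := (exp_deriv (1 + v1 * δ) t).const_mul (B * x ^ (2 + δ))
  have h3 := (exp_deriv (1 - v2 * δ) t).const_mul (G * x ^ (2 - δ))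
  have h4 := (h1.sub h2).sub h3
  have h5 : zzd A B G δ η v1 v2 x t =
      A * x ^ (2 : ℝ) * (-(1 + δ * η) * Real.exp (-((1 + δ * η) * t)))
      - B * x ^ (2 + δ) * (-(1 + v1 * δ) * Real.exp (-((1 + v1 * δ) * t)))
      - G * x ^ (2 - δ) * (-(1 - v2 * δ) * Real.exp (-((1 - v2 * δ) * t))) := by
    unfold zzd
    ring
  rw [h5]
  exact h4

lemma zz_zero_le {A B G δ η v1 v2 x : ℝ} (hA : 0 < A) (hB : B = A ^ (1 + δ / 2)) (hG : 0 < G)
    (hδ : 0 < δ) (hδ2 : δ < 1 / 2) (hx : 0 ≤ x) : zz A B G δ η v1 v2 x 0 ≤ 1 := by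
  unfold zz
  simp only [mul_zero, neg_zero, Real.exp_zero, mul_one]
  have hGx : 0 ≤ G * x ^ (2 - δ) := mul_nonneg hG.le (Real.rpow_nonneg hx _)
  have hBx : B * x ^ (2 + δ) = (A * x ^ (2 : ℝ)) ^ (1 + δ / 2) := by
    rw [Real.mul_rpow hA.le (Real.rpow_nonneg hx _), ← Real.rpow_mul hx, hB]
    congr 2
    ring
  rw [hBx]
  have hu : 0 ≤ A * x ^ (2 : ℝ) := mul_nonneg hA.le (Real.rpow_nonneg hx _)
  rcases le_total (A * x ^ (2 : ℝ)) 1 with h | h
  · have := Real.rpow_nonneg hu (1 + δ / 2)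
    linarith
  · have := Real.self_le_rpow_of_one_le h (by linarith : (1 : ℝ) ≤ 1 + δ / 2)
    linarith

lemma zz_le_zero {A B G δ η v1 v2 x ρ t : ℝ} (hA : 0 < A) (hB : 0 < B) (hG : G = A * ρ ^ δ)
    (hδ : 0 < δ) (hδ2 : δ < 1 / 2) (hη : 0 < η) (hv2 : 0 ≤ v2) (hx : 0 ≤ x) (hxρ : x ≤ ρ)
    (ht : 0 ≤ t) : zz A B G δ η v1 v2 x t ≤ 0 := by
  unfold zz
  have hBx : 0 ≤ B * x ^ (2 + δ) * Real.exp (-((1 + v1 * δ) * t)) :=
    mul_nonneg (mul_nonneg hB.le (Real.rpow_nonneg hx _)) (Real.exp_pos _).le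
  have key : A * x ^ (2 : ℝ) * Real.exp (-((1 + δ * η) * t)) ≤
      G * x ^ (2 - δ) * Real.exp (-((1 - v2 * δ) * t)) := by
    rcases hx.eq_or_lt with h0 | h0
    · rw [← h0, Real.zero_rpow (by norm_num), Real.zero_rpow (by linarith)]
      simp
    · have h1 : x ^ (2 : ℝ) = x ^ (2 - δ) * x ^ δ := by
        rw [← Real.rpow_add h0]
        congr 1
        ring
      have h2 : x ^ δ ≤ ρ ^ δ := Real.rpow_le_rpow hx hxρ hδ.le
      have h3 : Real.exp (-((1 + δ * η) * t)) ≤ Real.exp (-((1 - v2 * δ) * t)) := by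
        apply Real.exp_le_exp.2
        have : 0 ≤ (δ * η + v2 * δ) * t := by positivity
        nlinarith
      rw [h1, hG]
      calc A * (x ^ (2 - δ) * x ^ δ) * Real.exp (-((1 + δ * η) * t))
          = (A * x ^ (2 - δ)) * (x ^ δ * Real.exp (-((1 + δ * η) * t))) := by ring
        _ ≤ (A * x ^ (2 - δ)) * (ρ ^ δ * Real.exp (-((1 - v2 * δ) * t))) := by
            apply mul_le_mul_of_nonneg_left _ (by positivity)
            exact mul_le_mul h2 h3 (Real.exp_pos _).le (Real.rpow_nonneg (hx.trans hxρ) _)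
        _ = A * ρ ^ δ * x ^ (2 - δ) * Real.exp (-((1 - v2 * δ) * t)) := by ring
  linarith

end STEPaux

open STEPaux in
theorem pieceSTEP (hKAP : StmKAP) (hZIN : StmZIN) (hCMP : StmCMP) : StmSTEP := by
  intro ε hε
  obtain ⟨ε', hε'0, hε'1, hε'ε⟩ : ∃ ε' : ℝ, 0 < ε' ∧ ε' ≤ 1 ∧ ε' ≤ ε :=
    ⟨min ε 1, lt_min hε one_pos, min_le_right _ _, min_le_left _ _⟩
  obtain ⟨δ, v1, v2, hδ0, hδ2, hv1, hv12, hv2, hv1v2, M0, hM0, hk⟩ := hKAP (ε' / 4) (by linarith)
  obtain ⟨η, hη0, hη1, hη2⟩ : ∃ η : ℝ, 0 < η ∧ η ≤ ε' / 40 ∧ η ≤ (2 * v1 - 1) / 10 :=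
    ⟨min (ε' / 40) ((2 * v1 - 1) / 10), lt_min (by linarith) (by linarith), min_le_left _ _,
      min_le_right _ _⟩
  have hv1le : v1 ≤ 1 := hv12.trans hv2
  have hηv1 : η < v1 := by linarith
  set L := Real.log 4 with hL
  have hLpos : 0 < L := Real.log_pos (by norm_num)
  have hexpL : Real.exp (-L) = 1 / 4 := by
    rw [Real.exp_neg, hL, Real.exp_log (by norm_num)]
    norm_num
  have hl2 : 0 < Real.log 2 := Real.log_pos (by norm_num)
  set c1 := 2 * (v1 - η) - δ * η - (2 - ε') * (v2 + η) with hc1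
  set c2 := 2 * v1 - 1 - 2 * η - δ * η with hc2
  have hδη : δ * η ≤ 1 / 2 * η := by nlinarith
  have hc1pos : 0 < c1 := by
    have h1 : 0 ≤ ε' * η := by positivity
    have h2 : ε' * (1 / 2) ≤ ε' * v2 := by
      apply mul_le_mul_of_nonneg_left _ hε'0.le
      linarith
    have h3 : c1 = 2 * v1 - 2 * v2 + ε' * v2 - 4 * η - δ * η + ε' * η := by
      rw [hc1]; ring
    have h4 : 2 * v1 ≥ 2 * v2 - ε' * v2 / 2 := by linarith
    rw [h3]
    linarith
  have hc2pos : 0 < c2 := by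
    rw [hc2]
    linarith
  set D := Real.log 2 + 4 * L / δ + 1 with hD
  have hLδ : 0 < L / δ := by positivity
  have hDpos : 0 < D := by
    rw [hD]; positivity
  set τ := D / c1 + D / c2 with hτ
  have hτpos : 0 < τ := by
    rw [hτ]; positivity
  have hc1τ : D ≤ c1 * τ := by
    rw [hτ, mul_add, mul_div_cancel₀ _ hc1pos.ne']
    have : 0 < c1 * (D / c2) := by positivity
    linarith
  have hc2τ : D ≤ c2 * τ := by
    rw [hτ, mul_add, mul_div_cancel₀ _ hc2pos.ne']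
    have : 0 < c2 * (D / c1) := by positivity
    linarith
  set a := -2 * (L / δ) + 2 * (v1 - η) * τ with ha
  set r := -(L / δ) - (v2 + η) * τ with hr
  have hLδ4 : 4 * L / δ = 4 * (L / δ) := by ring
  have hrneg : r < 0 := by
    rw [hr]
    have : 0 < (v2 + η) * τ := by
      have : 0 < v2 := by linarith
      positivity
    linarith
  set A := Real.exp a with hA
  set ρ := Real.exp r with hρ
  set B := A ^ (1 + δ / 2) with hB
  set G := A * ρ ^ δ with hG
  set Λ := 1 / 2 * A * Real.exp (-((1 + δ * η) * τ)) with hΛ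
  have hApos : 0 < A := Real.exp_pos _
  have hρpos : 0 < ρ := Real.exp_pos _
  have hBpos : 0 < B := Real.rpow_pos_of_pos hApos _
  have hGpos : 0 < G := mul_pos hApos (Real.rpow_pos_of_pos hρpos _)
  have hΛpos : 0 < Λ := by
    rw [hΛ]; positivity
  have hlogΛ : Real.log Λ = -Real.log 2 + a - (1 + δ * η) * τ := by
    rw [hΛ, Real.log_mul (by positivity) (Real.exp_pos _).ne', Real.log_mul (by norm_num)
      hApos.ne', hA, Real.log_exp, Real.log_exp, one_div, Real.log_inv]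
    ring
  have hlogρ : Real.log (1 / ρ) = L / δ + (v2 + η) * τ := by
    rw [one_div, Real.log_inv, hρ, Real.log_exp, hr]
    ring
  obtain ⟨J0, hJ0⟩ : ∃ J0 : ℕ, max ((M0 : ℝ) / ρ) 2 ≤ J0 := exists_nat_ge _
  have hJ0a : (M0 : ℝ) / ρ ≤ J0 := (le_max_left _ _).trans hJ0
  have hJ0b : (2 : ℝ) ≤ J0 := (le_max_right _ _).trans hJ0
  refine ⟨ρ, Λ, τ, min (1 / 2) (12 * (δ * η) * Real.exp (-(2 * v1 * τ))), J0, hρpos,
    Real.exp_lt_one_iff.2 hrneg, ?_, hτpos, lt_min (by norm_num) (by positivity), ?_, ?_, ?_, ?_⟩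
  · rw [← Real.log_pos_iff hΛpos.le, hlogΛ, ha]
    have h1 : c2 * τ = 2 * (v1 - η) * τ - (1 + δ * η) * τ := by rw [hc2]; ring
    have h2 : D ≤ 2 * (v1 - η) * τ - (1 + δ * η) * τ := h1 ▸ hc2τ
    rw [hD, hLδ4] at h2
    linarith
  · exact lt_of_le_of_lt (min_le_left _ _) (by norm_num)
  · exact_mod_cast hJ0b
  · have h0 : 0 < Real.log (1 / ρ) := by
      rw [hlogρ]
      have : 0 < v2 := by linarith
      positivity
    have h1 : (2 - ε) * Real.log (1 / ρ) ≤ (2 - ε') * Real.log (1 / ρ) := by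
      apply mul_le_mul_of_nonneg_right _ h0.le
      linarith
    refine h1.trans ?_
    rw [hlogρ, hlogΛ, ha]
    have h2 : c1 * τ = 2 * (v1 - η) * τ - δ * η * τ - (2 - ε') * ((v2 + η) * τ) := by
      rw [hc1]; ring
    rw [h2, hD, hLδ4] at hc1τ
    have h3 : (2 - ε') * (L / δ) ≤ 2 * (L / δ) := by
      apply mul_le_mul_of_nonneg_right _ hLδ.le
      linarith
    have h4 : (2 - ε') * (L / δ + (v2 + η) * τ) = (2 - ε') * (L / δ) + (2 - ε') * ((v2 + η) * τ) := by
      ring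
    rw [h4]
    have h5 : (1 + δ * η) * τ = τ + δ * η * τ := by ring
    rw [h5]
    linarith
  · intro F hF j hj t0 g ht0 hg hgg0 hGk
    have hgle : g ≤ 12 * (δ * η) * Real.exp (-(2 * v1 * τ)) := hgg0.trans (min_le_right _ _)
    have hjJ : (J0 : ℝ) ≤ j := by exact_mod_cast hj
    have hjpos : (0 : ℝ) < j := by linarith
    have hρj : (M0 : ℝ) ≤ ρ * j := by
      have h1 : (M0 : ℝ) / ρ ≤ j := hJ0a.trans hjJ
      rw [div_le_iff₀ hρpos] at h1
      linarith
    have hm0 : M0 ≤ ⌈ρ * (j : ℝ)⌉₊ := by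
      have h1 : (M0 : ℝ) ≤ (⌈ρ * (j : ℝ)⌉₊ : ℝ) := hρj.trans (Nat.le_ceil _)
      exact_mod_cast h1
    have hmain := hCMP F hF t0 τ g ⌈ρ * (j : ℝ)⌉₊
      (fun m t => zz A B G δ η v1 v2 ((m : ℝ) / j) t)
      (fun m t => zzd A B G δ η v1 v2 ((m : ℝ) / j) t) ht0 hτpos.le hg (hM0.trans hm0)
      (fun m => (zz_cont _ _ _ _ _ _ _ _).continuousOn)
      (fun m t _ => zz_deriv _ _ _ _ _ _ _ _ _)
      (fun m => zz_zero_le hApos hB hGpos hδ0 hδ2 (by positivity))
      (by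
        intro m hm t ht
        have h1 : (m : ℝ) < ρ * j := Nat.lt_ceil.1 hm
        apply zz_le_zero hApos hBpos hG hδ0 hδ2 hη0 (by linarith) (by positivity) _ ht.1
        rw [div_le_iff₀ hjpos]
        exact h1.le)
      (by
        intro m hm
        apply hGk
        exact (Nat.le_ceil _).trans (by exact_mod_cast hm))
      (by
        intro m hm t ht hz
        have hmM : M0 ≤ m := hm0.trans hm
        have hkm := hk m hmM
        exact hZIN A B G δ η v1 v2 g τ t j m hδ0 hδ2 hη0 hηv1 hv1le (by linarith) hv2 hApos hB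
          hGpos hjpos (hM0.trans hmM) hkm.1 hkm.2 ht.1.le ht.2.le hg hgle hz)
      j (by
        have : (1 : ℝ) ≤ j := by linarith
        exact_mod_cast this) τ ⟨hτpos.le, le_rfl⟩
    have hzj : zz A B G δ η v1 v2 ((j : ℝ) / j) τ = Λ := by
      rw [div_self hjpos.ne']
      unfold zz
      simp only [Real.one_rpow, mul_one]
      have hBe : B * Real.exp (-((1 + v1 * δ) * τ)) =
          1 / 4 * (A * Real.exp (-((1 + δ * η) * τ))) := by
        rw [hB, hA, ← Real.exp_mul, ← hexpL, ← Real.exp_add, ← Real.exp_add, ← Real.exp_add]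
        congr 1
        rw [ha]
        field_simp
        ring
      have hGe : G * Real.exp (-((1 - v2 * δ) * τ)) =
          1 / 4 * (A * Real.exp (-((1 + δ * η) * τ))) := by
        rw [hG, hA, hρ, ← Real.exp_mul, ← hexpL, ← Real.exp_add, ← Real.exp_add, ← Real.exp_add,
          ← Real.exp_add]
        congr 1
        rw [hr]
        field_simp
        ring
      rw [hBe, hGe, hΛ]
      ring
    rw [hzj, max_eq_left hΛpos.le] at hmain
    linarith

end Pool.Agent.R977.BS
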