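import Pool.Agent.R977.BS.Defs

/-! Statements of the pieces (see NOTES.md). -/

open MeasureTheory Filter ProbabilityTheory
open scoped BigOperators Topology ENNReal NNReal

namespace Pool.Agent.R977.BS

/-- MEAS: basic measure facts. -/
def StmMEAS : Prop :=
  (∀ m : ℕ, 2 ≤ m → IsProbabilityMeasure (splitLaw m)) ∧
  (∀ m : ℕ, IsProbabilityMeasure (markLaw m)) ∧
  (∀ n : ℕ, IsProbabilityMeasure (heightLaw n))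

/-- TREE: the height of the tree `ctcs n` has law `heightLaw n`. -/
def StmTREE : Prop :=
  ∀ n : ℕ, Measurable (fun ω : List Bool × ℕ → ℝ × ℕ => (ctcs n ω).height) ∧
    PP.map (fun ω => (ctcs n ω).height) = heightLaw n

/-- LEAVES: almost surely `ctcs n` has `n` leaves. -/
def StmLEAVES : Prop :=
  ∀ n : ℕ, 1 ≤ n → ∀ᵐ ω ∂PP, (ctcs n ω).leaves = n

/-- ODE: the distribution functions of the heights solve the system. -/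
def StmODE : Prop :=
  Sys (fun m t => (heightLaw m).real (Set.Iic t))

/-- UP: first moment upper bound. -/
def StmUP : Prop :=
  ∀ F : ℕ → ℝ → ℝ, Sys F → ∀ m : ℕ, 2 ≤ m → ∀ t : ℝ, 0 ≤ t →
    1 - F m t ≤ ((m : ℝ) * ((m : ℝ) - 1) / 2) * Real.exp (-t)

/-- PAIR: lower bound by one pair of leaves. -/
def StmPAIR : Prop :=
  ∀ F : ℕ → ℝ → ℝ, Sys F → ∀ m : ℕ, 2 ≤ m → ∀ t : ℝ, 0 ≤ t →
    Real.exp (-t) ≤ 1 - F m t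

/-- KAP: asymptotics of `κ_m(2 ± δ)`. -/
def StmKAP : Prop :=
  ∀ ε : ℝ, 0 < ε → ∃ δ v1 v2 : ℝ, 0 < δ ∧ δ < 1 / 2 ∧ 1 / 2 < v1 ∧ v1 ≤ v2 ∧ v2 ≤ 1 ∧
    (1 - ε) * v2 ≤ v1 ∧ ∃ M0 : ℕ, 2 ≤ M0 ∧ ∀ m : ℕ, M0 ≤ m →
      1 + v1 * δ ≤ kap m (2 + δ) ∧ 1 - v2 * δ ≤ kap m (2 - δ)

/-- LOP: the action of the linear operator on powers. -/
def StmLOP : Prop :=
  ∀ (m : ℕ) (p s : ℝ), 2 ≤ m → 0 < s →
    ∑ i ∈ Finset.Ioo 0 m, 2 * ww m i * ((i : ℝ) / s) ^ p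
      = (hh (m - 1) - kap m p) * ((m : ℝ) / s) ^ p

/-- ZIN: the profile satisfies the differential inequality. -/
def StmZIN : Prop :=
  ∀ (A B G δ η v1 v2 g τ t s : ℝ) (m : ℕ),
    0 < δ → δ < 1 / 2 → 0 < η → η < v1 → v1 ≤ 1 → 0 ≤ v2 → v2 ≤ 1 →
    0 < A → B = A ^ (1 + δ / 2) → 0 < G → 0 < s → 2 ≤ m →
    1 + v1 * δ ≤ kap m (2 + δ) → 1 - v2 * δ ≤ kap m (2 - δ) →
    0 ≤ t → t ≤ τ → 0 < g → g ≤ 12 * (δ * η) * Real.exp (-(2 * v1 * τ)) →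
    0 < zz A B G δ η v1 v2 ((m : ℝ) / s) t →
    zzd A B G δ η v1 v2 ((m : ℝ) / s) t + hh (m - 1) * zz A B G δ η v1 v2 ((m : ℝ) / s) t ≤
      ∑ i ∈ Finset.Ioo 0 m, 2 * ww m i * max (zz A B G δ η v1 v2 ((i : ℝ) / s) t) 0
      - g * ∑ i ∈ Finset.Ioo 0 m, ww m i * (max (zz A B G δ η v1 v2 ((i : ℝ) / s) t) 0 *
          max (zz A B G δ η v1 v2 (((m - i : ℕ) : ℝ) / s) t) 0)

/-- CMP: comparison principle. -/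
def StmCMP : Prop :=
  ∀ F : ℕ → ℝ → ℝ, Sys F → ∀ (t0 τ g : ℝ) (m0 : ℕ) (z z' : ℕ → ℝ → ℝ),
    0 ≤ t0 → 0 ≤ τ → 0 < g → 2 ≤ m0 →
    (∀ m, ContinuousOn (z m) (Set.Icc 0 τ)) →
    (∀ m, ∀ t ∈ Set.Ioo (0 : ℝ) τ, HasDerivAt (z m) (z' m t) t) →
    (∀ m, z m 0 ≤ 1) →
    (∀ m, m < m0 → ∀ t ∈ Set.Icc (0 : ℝ) τ, z m t ≤ 0) →
    (∀ m, m0 ≤ m → g ≤ 1 - F m t0) →
    (∀ m, m0 ≤ m → ∀ t ∈ Set.Ioo (0 : ℝ) τ, 0 < z m t →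
      z' m t + hh (m - 1) * z m t ≤
        ∑ i ∈ Finset.Ioo 0 m, 2 * ww m i * max (z i t) 0
        - g * ∑ i ∈ Finset.Ioo 0 m, ww m i * (max (z i t) 0 * max (z (m - i) t) 0)) →
    ∀ m, 1 ≤ m → ∀ t ∈ Set.Icc (0 : ℝ) τ, F m (t0 + t) ≤ 1 - g * max (z m t) 0

/-- STEP: the gain in one step. -/
def StmSTEP : Prop :=
  ∀ ε : ℝ, 0 < ε → ∃ ρ Λ τ g0 : ℝ, ∃ J0 : ℕ,
    0 < ρ ∧ ρ < 1 ∧ 1 < Λ ∧ 0 < τ ∧ 0 < g0 ∧ g0 < 1 ∧ 2 ≤ J0 ∧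
    (2 - ε) * Real.log (1 / ρ) ≤ Real.log Λ + τ ∧
    ∀ F : ℕ → ℝ → ℝ, Sys F → ∀ j : ℕ, J0 ≤ j → ∀ t0 g : ℝ, 0 ≤ t0 → 0 < g → g ≤ g0 →
      (∀ k : ℕ, ρ * (j : ℝ) ≤ (k : ℝ) → g ≤ 1 - F k t0) → Λ * g ≤ 1 - F j (t0 + τ)

/-- L1: positive probability of a large height. -/
def StmL1 : Prop :=
  ∀ F : ℕ → ℝ → ℝ, Sys F → ∀ ε : ℝ, 0 < ε → ε < 1 → ∃ g : ℝ, 0 < g ∧ ∃ m1 : ℕ, 2 ≤ m1 ∧
    ∀ k : ℕ, m1 ≤ k → ∀ t : ℝ, 0 ≤ t → t ≤ (2 - ε) * Real.log k → g ≤ 1 - F k t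

/-- BOOST: amplification with a fixed threshold `k0`. -/
def StmBOOST : Prop :=
  ∀ F : ℕ → ℝ → ℝ, Sys F → ∀ (b T : ℝ) (k0 : ℕ), 0 ≤ b → b < 1 → 0 ≤ T → 1 ≤ k0 →
    (∀ i : ℕ, k0 ≤ i → ∀ t : ℝ, 0 ≤ t → t ≤ T → F i t ≤ b) →
    ∀ m : ℕ, 6 * k0 ≤ m → F m T ≤ ((6 * (k0 : ℝ)) / (m : ℝ)) ^ ((1 - b) / 2)

/-- L2: the height is at least `(2 - ε) log n` with probability tending to one. -/
def StmL2 : Prop :=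
  ∀ F : ℕ → ℝ → ℝ, Sys F → ∀ ε : ℝ, 0 < ε → ε < 1 →
    Tendsto (fun m : ℕ => F m ((2 - ε) * Real.log m)) atTop (𝓝 0)

/-- LIM: the limit theorem for the recursive laws. -/
def StmLIM : Prop :=
  ∀ ε : ℝ, 0 < ε →
    Tendsto (fun n : ℕ => heightLaw n {x : ℝ | ε < |x / Real.log n - 2|}) atTop (𝓝 0)

/-- CST: the conjectured value `1 + μ + μ^3 σ^2 / 2` (with `μ = 6/π²`, `σ² = 2 ζ(3)`) is smaller than 2. -/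
def StmCST : Prop :=
  1 + 6 / Real.pi ^ 2 + (6 / Real.pi ^ 2) ^ 3 * (2 * ∑' k : ℕ, 1 / ((k : ℝ) + 1) ^ 3) / 2 < 2

/-- FINAL: the answer, `c = 2`. -/
def StmFINAL : Prop :=
  ∀ c : ℝ, (∀ ε : ℝ, 0 < ε → Tendsto
    (fun n : ℕ => PP {ω | ε < |(ctcs n ω).height / Real.log n - c|}) atTop (𝓝 0)) ↔ c = 2

end Pool.Agent.R977.BS
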