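import Pool.Agent.R977.BS.Stm

/-! BS-TREE: the height of the tree `ctcs n` has the law `heightLaw n`. -/

open MeasureTheory Filter ProbabilityTheory
open scoped BigOperators Topology ENNReal NNReal

namespace Pool.Agent.R977.BS

namespace TREE

/-- The marks. -/
abbrev Om : Type := List Bool × ℕ → ℝ × ℕ

/-- The marks below the child `b`. -/
def sh (b : Bool) (ω : Om) : Om := fun p => ω (b :: p.1, p.2)

theorem measurable_sh (b : Bool) : Measurable (sh b) :=
  measurable_pi_lambda _ fun _ => measurable_pi_apply _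

theorem meas_coord (T : Set (List Bool × ℕ)) (i : List Bool × ℕ) (hi : i ∈ T) :
    Measurable[⨆ i ∈ T, MeasurableSpace.comap (fun ω : Om => ω i) inferInstance]
      (fun ω : Om => ω i) := by
  rw [measurable_iff_comap_le]
  exact le_iSup₂ (f := fun i (_ : i ∈ T) =>
    MeasurableSpace.comap (fun ω : Om => ω i) inferInstance) i hi

theorem prob_PP (hM : ∀ m : ℕ, IsProbabilityMeasure (markLaw m)) : IsProbabilityMeasure PP := by
  have : ∀ p : List Bool × ℕ, IsProbabilityMeasure (markLaw p.2) := fun p => hM _
  unfold PP; infer_instance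

theorem map_sh (hM : ∀ m : ℕ, IsProbabilityMeasure (markLaw m)) (b : Bool) :
    PP.map (sh b) = PP := by
  have : ∀ p : List Bool × ℕ, IsProbabilityMeasure (markLaw p.2) := fun p => hM _
  exact Measure.map_infinitePi_infinitePi_of_inj
    (P := fun p : List Bool × ℕ => markLaw p.2)
    (f := fun p : List Bool × ℕ => (b :: p.1, p.2)) (by
      rintro ⟨w, m⟩ ⟨w', m'⟩ h
      simpa using h)

theorem indep_blocks (hM : ∀ m : ℕ, IsProbabilityMeasure (markLaw m))
    (S T : Set (List Bool × ℕ)) (hST : Disjoint S T) :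
    Indep (⨆ i ∈ S, MeasurableSpace.comap (fun ω : Om => ω i) inferInstance)
      (⨆ i ∈ T, MeasurableSpace.comap (fun ω : Om => ω i) inferInstance) PP := by
  have : ∀ p : List Bool × ℕ, IsProbabilityMeasure (markLaw p.2) := fun p => hM _
  have h1 : iIndepFun (fun (i : List Bool × ℕ) (ω : Om) => ω i) PP :=
    iIndepFun_infinitePi (P := fun p : List Bool × ℕ => markLaw p.2)
      (X := fun _ x => x) (fun _ => measurable_id)
  exact indep_iSup_of_disjoint (fun i => (measurable_pi_apply i).comap_le) h1 hST

theorem indepFun_of_blocks (hM : ∀ m : ℕ, IsProbabilityMeasure (markLaw m))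
    (S T : Set (List Bool × ℕ)) (hST : Disjoint S T) {α β : Type*} [mα : MeasurableSpace α]
    [mβ : MeasurableSpace β] {f : Om → α} {g : Om → β}
    (hf : Measurable[⨆ i ∈ S, MeasurableSpace.comap (fun ω : Om => ω i) inferInstance] f)
    (hg : Measurable[⨆ i ∈ T, MeasurableSpace.comap (fun ω : Om => ω i) inferInstance] g) :
    IndepFun f g PP := by
  refine indep_of_indep_of_le_left (indep_of_indep_of_le_right (indep_blocks hM S T hST) ?_) ?_
  · exact measurable_iff_comap_le.1 hg
  · exact measurable_iff_comap_le.1 hf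

theorem key (hM : ∀ m : ℕ, IsProbabilityMeasure (markLaw m)) (n : ℕ) :
    PP.map (fun ω : Om => (ω ([], n), (sh false ω, sh true ω)))
      = (markLaw n).prod (PP.prod PP) := by
  have hP := prob_PP hM
  have hp : ∀ p : List Bool × ℕ, IsProbabilityMeasure (markLaw p.2) := fun p => hM _
  have hsh : ∀ b : Bool, ∀ T : Set (List Bool × ℕ), (∀ w m, (b :: w, m) ∈ T) →
      Measurable[⨆ i ∈ T, MeasurableSpace.comap (fun ω : Om => ω i) inferInstance] (sh b) := by
    intro b T hT
    exact @measurable_pi_lambda Om (List Bool × ℕ) (fun _ => ℝ × ℕ)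
      (⨆ i ∈ T, MeasurableSpace.comap (fun ω : Om => ω i) inferInstance) _ _
      fun p => meas_coord T _ (hT _ _)
  have h1 : IndepFun (fun ω : Om => ω ([], n)) (fun ω : Om => (sh false ω, sh true ω)) PP := by
    refine indepFun_of_blocks hM {p | p.1 = []} {p | p.1 ≠ []} ?_ ?_ ?_
    · rw [Set.disjoint_left]; intro p h1 h2; exact h2 h1
    · exact meas_coord _ _ rfl
    · exact Measurable.prodMk (hsh _ _ (by simp)) (hsh _ _ (by simp))
  have h2 : IndepFun (sh false) (sh true) PP := by
    refine indepFun_of_blocks hM {p | p.1.head? = some false} {p | p.1.head? = some true} ?_ ?_ ?_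
    · rw [Set.disjoint_left]; intro p h1 h2
      rw [Set.mem_ofPred_eq] at h1 h2
      rw [h1] at h2; simp at h2
    · exact hsh _ _ (by simp)
    · exact hsh _ _ (by simp)
  have h3 : PP.map (fun ω : Om => ω ([], n)) = markLaw n :=
    Measure.infinitePi_map_eval (fun p : List Bool × ℕ => markLaw p.2) ([], n)
  rw [h1.map_prod_eq_prod_map_map (measurable_pi_apply _).aemeasurable
    ((measurable_sh _).prodMk (measurable_sh _)).aemeasurable,
    h2.map_prod_eq_prod_map_map (measurable_sh _).aemeasurable (measurable_sh _).aemeasurable,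
    map_sh hM, map_sh hM, h3]

/-- The height. -/
noncomputable def H (n : ℕ) (ω : Om) : ℝ := (ctcs n ω).height

theorem H_eq (n : ℕ) (ω : Om) : H n ω = if 0 < (ω ([], n)).2 ∧ (ω ([], n)).2 < n then
    (ω ([], n)).1 + max (H (ω ([], n)).2 (sh false ω)) (H (n - (ω ([], n)).2) (sh true ω))
    else 0 := by
  unfold H
  rw [ctcs]
  split_ifs <;> rfl

/-- The recursion. -/
noncomputable def Psi (n : ℕ) (p : (ℝ × ℕ) × (Om × Om)) : ℝ :=
  if 0 < p.1.2 ∧ p.1.2 < n then p.1.1 + max (H p.1.2 p.2.1) (H (n - p.1.2) p.2.2) else 0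

theorem measurable_Psi (n : ℕ) (hH : ∀ i, i < n → Measurable (H i)) : Measurable (Psi n) := by
  have h1 : Psi n = fun p => ∑ i ∈ Finset.Ioo 0 n,
      (if p.1.2 = i then p.1.1 + max (H i p.2.1) (H (n - i) p.2.2) else 0) := by
    funext p
    rw [Finset.sum_ite_eq]
    simp only [Psi, Finset.mem_Ioo]
  rw [h1]
  refine Finset.measurable_fun_sum _ fun i hi => ?_
  rw [Finset.mem_Ioo] at hi
  refine Measurable.ite ?_ ?_ measurable_const
  · exact (measurable_fst.snd) (measurableSet_singleton i)
  · have hi1 := hH i hi.2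
    have hi2 := hH (n - i) (by omega)
    exact (measurable_fst.fst).add ((hi1.comp (measurable_snd.fst)).max
      (hi2.comp (measurable_snd.snd)))

theorem hh_pos {n : ℕ} (hn : 2 ≤ n) : 0 < hh (n - 1) := by
  unfold hh
  refine Finset.sum_pos (fun i _ => by positivity) ?_
  exact ⟨0, Finset.mem_range.2 (by omega)⟩

theorem main (hS : ∀ m : ℕ, 2 ≤ m → IsProbabilityMeasure (splitLaw m))
    (hM : ∀ m : ℕ, IsProbabilityMeasure (markLaw m)) (n : ℕ) :
    Measurable (H n) ∧ PP.map (H n) = heightLaw n := by
  have hP := prob_PP hM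
  induction n using Nat.strong_induction_on with
  | _ n ih =>
    rcases Nat.lt_or_ge n 2 with hn | hn
    · have h1 : H n = fun _ => 0 := by
        funext ω
        rw [H_eq, if_neg (by omega)]
      rw [h1]
      refine ⟨measurable_const, ?_⟩
      rw [heightLaw, if_pos (by omega), Measure.map_const, measure_univ, one_smul]
    · have hmeas : ∀ i, i < n → Measurable (H i) := fun i hi => (ih i hi).1
      have hΨ := measurable_Psi n hmeas
      have hΦ : Measurable (fun ω : Om => (ω ([], n), (sh false ω, sh true ω))) :=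
        (measurable_pi_apply _).prodMk ((measurable_sh _).prodMk (measurable_sh _))
      have h1 : H n = Psi n ∘ (fun ω : Om => (ω ([], n), (sh false ω, sh true ω))) := by
        funext ω
        rw [H_eq]; rfl
      refine ⟨by rw [h1]; exact hΨ.comp hΦ, ?_⟩
      have hexp : IsProbabilityMeasure (expMeasure (hh (n - 1))) :=
        isProbabilityMeasure_expMeasure (hh_pos hn)
      have hspl := hS n hn
      rw [h1, ← Measure.map_map hΨ hΦ, key hM]
      have hmark : markLaw n = (expMeasure (hh (n - 1))).prod (splitLaw n) := by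
        unfold markLaw; rw [if_pos hn]
      rw [hmark]
      ext B hB
      rw [Measure.map_apply hΨ hB, Measure.prod_apply (hΨ hB),
        lintegral_prod_symm _ (measurable_measure_prodMk_left (hΨ hB)).aemeasurable]
      rw [heightLaw, if_neg (by omega)]
      unfold splitLaw
      rw [lintegral_finsetSum_measure, Finset.sum_attach (Finset.Ioo 0 n) (fun i =>
        ENNReal.ofReal (qq n i) • Measure.map (fun p : ℝ × (ℝ × ℝ) => p.1 + max p.2.1 p.2.2)
        ((expMeasure (hh (n - 1))).prod ((heightLaw i).prod (heightLaw (n - i))))),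
        Measure.finsetSum_apply]
      refine Finset.sum_congr rfl fun i hi => ?_
      rw [Finset.mem_Ioo] at hi
      rw [lintegral_smul_measure, lintegral_dirac, Measure.smul_apply]
      congr 1
      have hf : Measurable (fun p : ℝ × (ℝ × ℝ) => p.1 + max p.2.1 p.2.2) := by fun_prop
      have hi1 := ih i hi.2
      have hi2 := ih (n - i) (by omega)
      have hP1 : IsProbabilityMeasure (PP.map (H i)) :=
        Measure.isProbabilityMeasure_map hi1.1.aemeasurable
      have hP2 : IsProbabilityMeasure (PP.map (H (n - i))) :=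
        Measure.isProbabilityMeasure_map hi2.1.aemeasurable
      rw [← hi1.2, ← hi2.2, Measure.map_apply hf hB, Measure.prod_apply (hf hB)]
      refine lintegral_congr fun t => ?_
      rw [Measure.map_prod_map _ _ hi1.1 hi2.1, Measure.map_apply (hi1.1.prodMap hi2.1)
        (measurable_prodMk_left (hf hB))]
      congr 1
      ext p
      simp only [Set.mem_preimage, Psi, Prod.map]
      rw [if_pos hi]

end TREE

theorem pieceTREE (h : StmMEAS) : StmTREE := fun n => TREE.main h.1 h.2.1 n

end Pool.Agent.R977.BS
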