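import Pool.Agent.R977.BS.Stm

/-! Piece UP: first moment upper bound. -/

open scoped BigOperators

namespace Pool.Agent.R977.BS

namespace UP

/-- `Σ_{0<i<m} 1/(m-i) = h_{m-1}`. -/
theorem sum_inv (m : ℕ) :
    ∑ i ∈ Finset.Ioo 0 m, 1 / ((m : ℝ) - (i : ℝ)) = hh (m - 1) := by
  rw [← sum_ww]
  have h1 : ∀ i ∈ Finset.Ioo 0 m, ww m i
      = 1 / 2 * (1 / ((m : ℝ) - (i : ℝ))) + 1 / 2 * (1 / ((m : ℝ) - ((m - i : ℕ) : ℝ))) := by
    intro i hi
    rw [Finset.mem_Ioo] at hi
    unfold ww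
    have h2 : (0 : ℝ) < i := by exact_mod_cast hi.1
    have h3 : (i : ℝ) < m := by exact_mod_cast hi.2
    have h4 : (m : ℝ) - i ≠ 0 := by linarith
    rw [Nat.cast_sub hi.2.le]
    have h5 : (m : ℝ) - ((m : ℝ) - i) = i := by ring
    rw [h5]
    field_simp
    ring
  rw [Finset.sum_congr rfl h1, Finset.sum_add_distrib, ← Finset.mul_sum, ← Finset.mul_sum,
    sum_refl m (fun i => 1 / ((m : ℝ) - (i : ℝ)))]
  ring

/-- the linear operator on `i(i-1)/2` -/
theorem sum_pairs {m : ℕ} (hm : 2 ≤ m) :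
    ∑ i ∈ Finset.Ioo 0 m, 2 * ww m i * ((i : ℝ) * ((i : ℝ) - 1) / 2)
      = (hh (m - 1) - 1) * ((m : ℝ) * ((m : ℝ) - 1) / 2) := by
  have h1 : ∀ i ∈ Finset.Ioo 0 m, 2 * ww m i * ((i : ℝ) * ((i : ℝ) - 1) / 2)
      = (m : ℝ) / 2 * ((m : ℝ) - 1) * (1 / ((m : ℝ) - (i : ℝ))) - (m : ℝ) / 2 := by
    intro i hi
    rw [Finset.mem_Ioo] at hi
    have h2 : (0 : ℝ) < i := by exact_mod_cast hi.1
    have h3 : (i : ℝ) < m := by exact_mod_cast hi.2
    have h4 : (m : ℝ) - i ≠ 0 := by linarith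
    unfold ww
    field_simp
    ring
  rw [Finset.sum_congr rfl h1, Finset.sum_sub_distrib, ← Finset.mul_sum, sum_inv,
    Finset.sum_const, Nat.card_Ioo]
  have h5 : ((m - 0 - 1 : ℕ) : ℝ) = (m : ℝ) - 1 := by
    rw [Nat.cast_sub (by omega)]; simp
  rw [nsmul_eq_mul, h5]
  ring

end UP

theorem pieceUP : StmUP := by
  intro F hF m
  suffices H : 1 ≤ m → ∀ t : ℝ, 0 ≤ t →
      1 - F m t ≤ ((m : ℝ) * ((m : ℝ) - 1) / 2) * Real.exp (-t) by
    intro hm t ht
    exact H (by omega) t ht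
  induction m using Nat.strong_induction_on with
  | _ m ih =>
    intro hm1 t ht
    rcases Nat.lt_or_ge m 2 with hm | hm
    · have h1 : m = 1 := by omega
      subst h1
      rw [hF.one t ht]
      simp
    refine cmp (h := hh (m - 1)) (φ := fun u => 1 - F m u)
      (ψ := fun u => ((m : ℝ) * ((m : ℝ) - 1) / 2) * Real.exp (-u))
      (φ' := fun u => -(∑ i ∈ Finset.Ioo 0 m, ww m i * (F i u * F (m - i) u)
        - hh (m - 1) * F m u))
      (ψ' := fun u => -(((m : ℝ) * ((m : ℝ) - 1) / 2) * Real.exp (-u))) ht ?_ ?_ ?_ ?_ ?_ ?_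
    · exact continuousOn_const.sub ((hF.cont m).mono fun u hu => hu.1)
    · fun_prop
    · intro u hu
      exact (hF.deriv m hm u hu.1).const_sub 1
    · intro u _
      have h1 : HasDerivAt (fun u : ℝ => Real.exp (-u)) (Real.exp (-u) * (-1)) u :=
        (hasDerivAt_neg u).exp
      have h2 := h1.const_mul ((m : ℝ) * ((m : ℝ) - 1) / 2)
      simpa using h2
    · have h2 : (2 : ℝ) ≤ m := by exact_mod_cast hm
      simp only [hF.zero m hm, neg_zero, Real.exp_zero]
      nlinarith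
    · intro u hu
      have hu0 : 0 ≤ u := hu.1.le
      have h1 : hh (m - 1) - ∑ i ∈ Finset.Ioo 0 m, ww m i * (F i u * F (m - i) u)
          ≤ ∑ i ∈ Finset.Ioo 0 m, 2 * ww m i * (1 - F i u) := by
        have h3 : ∑ i ∈ Finset.Ioo 0 m, 2 * ww m i * (1 - F i u)
            = ∑ i ∈ Finset.Ioo 0 m, (ww m i * (1 - F i u) + ww m i * (1 - F (m - i) u)) := by
          rw [Finset.sum_add_distrib]
          have h4 : ∑ i ∈ Finset.Ioo 0 m, ww m i * (1 - F (m - i) u)
              = ∑ i ∈ Finset.Ioo 0 m, ww m i * (1 - F i u) := by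
            rw [← sum_refl m (fun i => ww m i * (1 - F i u))]
            apply Finset.sum_congr rfl
            intro i hi
            rw [ww_refl hi]
          rw [h4, ← Finset.sum_add_distrib]
          apply Finset.sum_congr rfl
          intro i _
          ring
        rw [h3, ← sum_ww, ← Finset.sum_sub_distrib]
        apply Finset.sum_le_sum
        intro i hi
        have hw := ww_nonneg hi
        have h5 : 0 ≤ (1 - F i u) * (1 - F (m - i) u) :=
          mul_nonneg (by linarith [hF.le_one i u]) (by linarith [hF.le_one (m - i) u])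
        nlinarith [mul_nonneg hw h5]
      have h2 : ∑ i ∈ Finset.Ioo 0 m, 2 * ww m i * (1 - F i u)
          ≤ ∑ i ∈ Finset.Ioo 0 m, 2 * ww m i * ((i : ℝ) * ((i : ℝ) - 1) / 2) * Real.exp (-u) := by
        apply Finset.sum_le_sum
        intro i hi
        have hw := ww_nonneg hi
        rw [Finset.mem_Ioo] at hi
        have h6 := ih i hi.2 hi.1 u hu0
        rw [mul_assoc (2 * ww m i)]
        exact mul_le_mul_of_nonneg_left h6 (by linarith)
      rw [← Finset.sum_mul, UP.sum_pairs hm] at h2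
      show _ + _ ≤ _ + _
      nlinarith [h1, h2]

end Pool.Agent.R977.BS
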