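import Pool.Agent.R977.BS.Stm

open MeasureTheory Filter ProbabilityTheory
open scoped BigOperators Topology ENNReal NNReal

namespace Pool.Agent.R977.BS

namespace ZIN

theorem kap_two (m : ℕ) (hm : 2 ≤ m) : kap m 2 ≤ 1 := by
  unfold kap
  have hm0 : (0 : ℝ) < m := by exact_mod_cast (by omega : 0 < m)
  have h1 : ∑ i ∈ Finset.Ioo 0 m, (1 - ((i : ℝ) / m) ^ ((2 : ℝ) - 1)) / (1 - (i : ℝ) / m)
      ≤ ∑ i ∈ Finset.Ioo 0 m, (1 : ℝ) := by
    apply Finset.sum_le_sum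
    intro i _
    have : (2 : ℝ) - 1 = 1 := by norm_num
    rw [this, Real.rpow_one]
    exact div_self_le_one _
  have h2 : ∑ i ∈ Finset.Ioo 0 m, (1 : ℝ) ≤ m := by
    rw [Finset.sum_const, Nat.card_Ioo, nsmul_eq_mul, mul_one]
    exact_mod_cast (by omega : m - 0 - 1 ≤ m)
  rw [one_div, inv_mul_le_iff₀ hm0, mul_one]
  exact le_trans h1 h2

theorem sum_range_mul (M : ℝ) (n : ℕ) : ∑ i ∈ Finset.range n, (i : ℝ) * (M - i)
    = M * (n * (n - 1)) / 2 - ((n : ℝ) - 1) * n * (2 * n - 1) / 6 := by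
  induction n with
  | zero => simp
  | succ n ih => rw [Finset.sum_range_succ, ih]; push_cast; ring

theorem sum_Ioo_mul (m : ℕ) (hm : 2 ≤ m) :
    ∑ i ∈ Finset.Ioo 0 m, (i : ℝ) * ((m : ℝ) - i) ≤ (m : ℝ) ^ 3 / 6 := by
  have h1 : ∑ i ∈ Finset.Ioo 0 m, (i : ℝ) * ((m : ℝ) - i)
      = ∑ i ∈ Finset.range m, (i : ℝ) * ((m : ℝ) - i) := by
    apply Finset.sum_subset
    · intro i hi; rw [Finset.mem_Ioo] at hi; rw [Finset.mem_range]; exact hi.2
    · intro i hi hi2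
      rw [Finset.mem_range] at hi
      rw [Finset.mem_Ioo] at hi2
      have : i = 0 := by omega
      subst this
      simp
  rw [h1, sum_range_mul]
  have hm0 : (0 : ℝ) < m := by exact_mod_cast (by omega : 0 < m)
  nlinarith

end ZIN

theorem pieceZIN (hlop : StmLOP) : StmZIN := by
  intro A B G δ η v1 v2 g τ t s m hδ hδ2 hη hηv hv1 hv2 hv2' hA hB hG hs hm hk1 hk2 ht htτ hg hgle hz
  have hm0 : (0 : ℝ) < m := by exact_mod_cast (by omega : 0 < m)
  have hx : 0 < (m : ℝ) / s := by positivity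
  have hB0 : 0 < B := by rw [hB]; positivity
  obtain ⟨a, ha⟩ : ∃ a, a = Real.exp (-((1 + δ * η) * t)) := ⟨_, rfl⟩
  obtain ⟨b, hb⟩ : ∃ b, b = Real.exp (-((1 + v1 * δ) * t)) := ⟨_, rfl⟩
  obtain ⟨c, hc⟩ : ∃ c, c = Real.exp (-((1 - v2 * δ) * t)) := ⟨_, rfl⟩
  have ha0 : 0 < a := by rw [ha]; exact Real.exp_pos _
  have hb0 : 0 < b := by rw [hb]; exact Real.exp_pos _
  have hc0 : 0 < c := by rw [hc]; exact Real.exp_pos _
  have ha1 : a ≤ 1 := by
    rw [ha]; apply Real.exp_le_one_iff.2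
    have : 0 ≤ (1 + δ * η) * t := by positivity
    linarith
  have hzz : ∀ x, zz A B G δ η v1 v2 x t
      = A * x ^ (2 : ℝ) * a - B * x ^ (2 + δ) * b - G * x ^ (2 - δ) * c := by
    intro x; rw [ha, hb, hc]; rfl
  have hzzd : ∀ x, zzd A B G δ η v1 v2 x t
      = -(1 + δ * η) * (A * x ^ (2 : ℝ) * a) + (1 + v1 * δ) * (B * x ^ (2 + δ) * b)
        + (1 - v2 * δ) * (G * x ^ (2 - δ) * c) := by
    intro x; rw [ha, hb, hc]; rfl
  have L2 := hlop m 2 s hm hs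
  have Lp := hlop m (2 + δ) s hm hs
  have Lm := hlop m (2 - δ) s hm hs
  have hk0 : kap m 2 ≤ 1 := ZIN.kap_two m hm
  have hlin : ∑ i ∈ Finset.Ioo 0 m, 2 * ww m i * zz A B G δ η v1 v2 ((i : ℝ) / s) t
      = A * a * ((hh (m - 1) - kap m 2) * ((m : ℝ) / s) ^ (2 : ℝ))
        - B * b * ((hh (m - 1) - kap m (2 + δ)) * ((m : ℝ) / s) ^ (2 + δ))
        - G * c * ((hh (m - 1) - kap m (2 - δ)) * ((m : ℝ) / s) ^ (2 - δ)) := by
    rw [← L2, ← Lp, ← Lm, Finset.mul_sum, Finset.mul_sum, Finset.mul_sum,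
      ← Finset.sum_sub_distrib, ← Finset.sum_sub_distrib]
    apply Finset.sum_congr rfl
    intro i _
    rw [hzz]; ring
  have hpos : ∑ i ∈ Finset.Ioo 0 m, 2 * ww m i * zz A B G δ η v1 v2 ((i : ℝ) / s) t
      ≤ ∑ i ∈ Finset.Ioo 0 m, 2 * ww m i * max (zz A B G δ η v1 v2 ((i : ℝ) / s) t) 0 :=
    Finset.sum_le_sum (fun i hi => mul_le_mul_of_nonneg_left (le_max_left _ _)
      (mul_nonneg (by norm_num) (ww_nonneg hi)))
  have hzle : ∀ x, 0 ≤ x → max (zz A B G δ η v1 v2 x t) 0 ≤ A * x ^ 2 * a := by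
    intro x hx
    apply max_le _ (by positivity)
    rw [hzz, Real.rpow_two]
    have h1 : 0 ≤ B * x ^ (2 + δ) * b := by positivity
    have h2 : 0 ≤ G * x ^ (2 - δ) * c := by positivity
    linarith
  have hquad : ∑ i ∈ Finset.Ioo 0 m, ww m i * (max (zz A B G δ η v1 v2 ((i : ℝ) / s) t) 0 *
      max (zz A B G δ η v1 v2 (((m - i : ℕ) : ℝ) / s) t) 0)
      ≤ (A * a) ^ 2 * ((m : ℝ) / s) ^ 4 / 12 := by
    calc _ ≤ ∑ i ∈ Finset.Ioo 0 m, ww m i * ((A * ((i : ℝ) / s) ^ 2 * a) *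
          (A * (((m - i : ℕ) : ℝ) / s) ^ 2 * a)) := by
          apply Finset.sum_le_sum
          intro i hi
          apply mul_le_mul_of_nonneg_left _ (ww_nonneg hi)
          exact mul_le_mul (hzle _ (by positivity)) (hzle _ (by positivity)) (le_max_right _ _)
            (by positivity)
      _ = (A * a) ^ 2 * m / (2 * s ^ 4) * ∑ i ∈ Finset.Ioo 0 m, (i : ℝ) * ((m : ℝ) - i) := by
          rw [Finset.mul_sum]
          apply Finset.sum_congr rfl
          intro i hi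
          rw [Finset.mem_Ioo] at hi
          rw [Nat.cast_sub hi.2.le]
          unfold ww
          have h1 : (0 : ℝ) < i := by exact_mod_cast hi.1
          have h2 : (i : ℝ) < m := by exact_mod_cast hi.2
          have h3 : (m : ℝ) - i ≠ 0 := by linarith
          field_simp
      _ ≤ (A * a) ^ 2 * m / (2 * s ^ 4) * ((m : ℝ) ^ 3 / 6) :=
          mul_le_mul_of_nonneg_left (ZIN.sum_Ioo_mul m hm) (by positivity)
      _ = (A * a) ^ 2 * ((m : ℝ) / s) ^ 4 / 12 := by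
          field_simp; ring
  -- size of `A x^2`
  have hAx : A * ((m : ℝ) / s) ^ 2 ≤ Real.exp (2 * v1 * τ) := by
    obtain ⟨x, hxd⟩ : ∃ x, x = (m : ℝ) / s := ⟨_, rfl⟩
    rw [← hxd] at hz hx ⊢
    rw [hzz] at hz
    have h1 : 0 ≤ G * x ^ (2 - δ) * c := by positivity
    have h2 : B * x ^ (2 + δ) * b < A * x ^ (2 : ℝ) * a := by linarith
    have h3 := Real.log_lt_log (by positivity) h2
    have hxp : x ^ (2 + δ) ≠ 0 := (Real.rpow_pos_of_pos hx _).ne'
    have hxp2 : x ^ (2 : ℝ) ≠ 0 := (Real.rpow_pos_of_pos hx _).ne'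
    rw [Real.log_mul (mul_ne_zero hB0.ne' hxp) hb0.ne', Real.log_mul hB0.ne' hxp,
      Real.log_mul (mul_ne_zero hA.ne' hxp2) ha0.ne', Real.log_mul hA.ne' hxp2,
      Real.log_rpow hx, Real.log_rpow hx, ha, hb, Real.log_exp, Real.log_exp, hB,
      Real.log_rpow hA] at h3
    have h4 : δ * (Real.log A + 2 * Real.log x) < δ * (2 * (v1 - η) * t) := by nlinarith
    have h5 : Real.log A + 2 * Real.log x < 2 * (v1 - η) * t := lt_of_mul_lt_mul_left h4 hδ.le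
    have h6 : 2 * (v1 - η) * t ≤ 2 * v1 * τ := by
      have h7 : 0 ≤ η * t := by positivity
      have h8 : v1 * t ≤ v1 * τ := mul_le_mul_of_nonneg_left htτ (by linarith)
      nlinarith
    have h9 : Real.log (A * x ^ 2) ≤ 2 * v1 * τ := by
      rw [Real.log_mul hA.ne' (by positivity), Real.log_pow]
      push_cast
      linarith
    exact (Real.log_le_iff_le_exp (by positivity)).1 h9
  have hq2 : g * ((A * a) ^ 2 * ((m : ℝ) / s) ^ 4 / 12) ≤ A * a * ((m : ℝ) / s) ^ 2 * (δ * η) := by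
    have h1 : g * (A * ((m : ℝ) / s) ^ 2) ≤ 12 * (δ * η) := by
      calc g * (A * ((m : ℝ) / s) ^ 2)
          ≤ (12 * (δ * η) * Real.exp (-(2 * v1 * τ))) * Real.exp (2 * v1 * τ) :=
            mul_le_mul hgle hAx (by positivity) (by positivity)
        _ = 12 * (δ * η) := by
            rw [mul_assoc, ← Real.exp_add, neg_add_cancel, Real.exp_zero, mul_one]
    have h2 : g * (A * ((m : ℝ) / s) ^ 2) * a ≤ 12 * (δ * η) * 1 :=
      mul_le_mul h1 ha1 ha0.le (by positivity)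
    have h3 : g * ((A * a) ^ 2 * ((m : ℝ) / s) ^ 4 / 12)
        = (A * a * ((m : ℝ) / s) ^ 2) * (g * (A * ((m : ℝ) / s) ^ 2) * a) / 12 := by ring
    have h4 : (A * a * ((m : ℝ) / s) ^ 2) * (g * (A * ((m : ℝ) / s) ^ 2) * a)
        ≤ (A * a * ((m : ℝ) / s) ^ 2) * (12 * (δ * η) * 1) :=
      mul_le_mul_of_nonneg_left h2 (by positivity)
    rw [h3]
    linarith
  have hq3 := mul_le_mul_of_nonneg_left hquad hg.le
  -- the linear part
  have hl2 : A * a * ((m : ℝ) / s) ^ 2 * (δ * η) ≤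
      (∑ i ∈ Finset.Ioo 0 m, 2 * ww m i * zz A B G δ η v1 v2 ((i : ℝ) / s) t)
      - hh (m - 1) * zz A B G δ η v1 v2 ((m : ℝ) / s) t - zzd A B G δ η v1 v2 ((m : ℝ) / s) t := by
    rw [hlin, hzz, hzzd, Real.rpow_two]
    obtain ⟨x, hxd⟩ : ∃ x, x = (m : ℝ) / s := ⟨_, rfl⟩
    rw [← hxd] at hx ⊢
    have h1 : 0 ≤ A * a * x ^ 2 * (1 - kap m 2) :=
      mul_nonneg (by positivity) (by linarith)
    have h2 : 0 ≤ B * b * x ^ (2 + δ) * (kap m (2 + δ) - (1 + v1 * δ)) :=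
      mul_nonneg (by positivity) (by linarith)
    have h3 : 0 ≤ G * c * x ^ (2 - δ) * (kap m (2 - δ) - (1 - v2 * δ)) :=
      mul_nonneg (by positivity) (by linarith)
    have h4 : A * a * ((hh (m - 1) - kap m 2) * x ^ 2)
        - B * b * ((hh (m - 1) - kap m (2 + δ)) * x ^ (2 + δ))
        - G * c * ((hh (m - 1) - kap m (2 - δ)) * x ^ (2 - δ))
        - hh (m - 1) * (A * x ^ 2 * a - B * x ^ (2 + δ) * b - G * x ^ (2 - δ) * c)
        - (-(1 + δ * η) * (A * x ^ 2 * a) + (1 + v1 * δ) * (B * x ^ (2 + δ) * b)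
          + (1 - v2 * δ) * (G * x ^ (2 - δ) * c))
        = A * a * x ^ 2 * (δ * η) + A * a * x ^ 2 * (1 - kap m 2)
          + B * b * x ^ (2 + δ) * (kap m (2 + δ) - (1 + v1 * δ))
          + G * c * x ^ (2 - δ) * (kap m (2 - δ) - (1 - v2 * δ)) := by ring
    rw [h4]
    linarith
  linarith

end Pool.Agent.R977.BS
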